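import Mathlib
import Pool.Agent.H94.AC.Targets
import Pool.Agent.H89.IC.FM0

/-!
# No flux out of flux free sets, near points off the edge (MP_0ee698_an, module FML)
-/

open MeasureTheory Set Filter Topology Metric
open scoped ENNReal NNReal ContDiff RealInnerProductSpace Manifold
open Pool.Agent.H94.IC Pool.Agent.H94.AC Pool.Agent.H89.IC

namespace Pool.Agent.H4.ICA

theorem gr_cont {O : Set E} (hO : IsOpen O) {f : E → ℝ} (hf : ContDiffOn ℝ ∞ f O) : ContinuousOn (gr f) O := by
  have h1 : ContDiffOn ℝ ∞ (fderiv ℝ f) O := hf.fderiv_of_isOpen hO (by simp)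
  exact (InnerProductSpace.toDual ℝ E).symm.continuous.comp_continuousOn h1.continuousOn

theorem gr_meas (f : E → ℝ) : Measurable (gr f) :=
  (InnerProductSpace.toDual ℝ E).symm.continuous.measurable.comp (measurable_fderiv ℝ f)

theorem norm_gr (f : E → ℝ) (x : E) : ‖gr f x‖ = ‖fderiv ℝ f x‖ := by
  simp only [gr, gradient]
  exact LinearIsometryEquiv.norm_map _ _

theorem norm_gr_le {f : E → ℝ} {K : ℝ≥0} (hf : LipschitzWith K f) (x : E) : ‖gr f x‖ ≤ K := by
  rw [norm_gr]
  exact norm_fderiv_le_of_lipschitz ℝ hf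

/-- the inner product of two square integrable fields is integrable -/
theorem inner_int {μ : Measure E} {F G : E → E} (hF : MemLp F 2 μ) (hG : MemLp G 2 μ) :
    Integrable (fun x => ⟪F x, G x⟫) μ := by
  have hA : Integrable (fun x => ‖F x‖ ^ 2) μ := (memLp_two_iff_integrable_sq_norm hF.1).1 hF
  have hB : Integrable (fun x => ‖G x‖ ^ 2) μ := (memLp_two_iff_integrable_sq_norm hG.1).1 hG
  refine ((hA.add hB).div_const 2).mono' (hF.1.inner hG.1) (Eventually.of_forall fun x => ?_)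
  have h1 := norm_inner_le_norm (𝕜 := ℝ) (F x) (G x)
  simp only [Pi.add_apply]
  nlinarith [sq_nonneg (‖F x‖ - ‖G x‖)]

/-- smoothness after multiplication by a cutoff -/
theorem cut_smooth {O : Set E} (hO : IsOpen O) {θ f : E → ℝ} (hθ : ContDiff ℝ ∞ θ) (hθt : tsupport θ ⊆ O)
    (hf : ContDiffOn ℝ ∞ f O) : ContDiff ℝ ∞ (fun x => θ x * f x) := by
  rw [contDiff_iff_contDiffAt]
  intro x
  by_cases hx : x ∈ O
  · exact hθ.contDiffAt.mul (hf.contDiffAt (hO.mem_nhds hx))
  · have hx' : x ∉ tsupport θ := fun hh => hx (hθt hh)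
    have h0 : (fun x => θ x * f x) =ᶠ[𝓝 x] fun _ => 0 := by
      filter_upwards [(isClosed_tsupport θ).isOpen_compl.mem_nhds hx'] with z hz
      rw [image_eq_zero_of_notMem_tsupport hz, zero_mul]
    exact contDiffAt_const.congr_of_eventuallyEq h0

theorem core1 {Ω S D U : Set E} {h κ φ w : E → ℝ} {K1 : ℝ≥0} (hΩ : IsOpen Ω) (hSc : IsClosed S)
    (hS0 : volume S = 0) (hW : WN Ω S h) (hD : IsOpen D) (hFF : FF D (gr h) (Ω \ S)) (hκ : LipschitzWith K1 κ)
    (hκc : HasCompactSupport κ) (hU : IsOpen U) (hUΩ : U ⊆ Ω) (hκU : tsupport κ ⊆ U)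
    (hφ : ContDiffOn ℝ ∞ φ (Ω \ S)) (hw : ContDiffOn ℝ ∞ w U)
    (hwS : ∀ x ∈ U, x ∈ S → ∀ᶠ z in 𝓝 x, w z = 0) :
    ∫ x in D ∩ Ω, (w x * (κ x * ⟪gr h x, gr φ x⟫ + φ x * ⟪gr h x, gr κ x⟫)
      + φ x * κ x * fderiv ℝ w x (gr h x)) = 0 := by
  have hOo : IsOpen (Ω \ S) := hΩ.sdiff hSc
  have hC0c : IsCompact (tsupport κ \ interior {x | w x = 0}) := hκc.isCompact.diff isOpen_interior
  have hC0s : tsupport κ \ interior {x | w x = 0} ⊆ U \ S := by
    intro x hx
    refine ⟨hκU hx.1, fun hxS => hx.2 ?_⟩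
    rw [mem_interior_iff_mem_nhds]
    exact hwS x (hκU hx.1) hxS
  obtain ⟨θ, hθs, hθc, hθt, hθ1, hθ01⟩ := exists_cutoff hC0c (hU.sdiff hSc) hC0s
  have hUS : U \ S ⊆ Ω \ S := fun x hx => ⟨hUΩ hx.1, hx.2⟩
  set g : E → ℝ := fun x => θ x * (w x * φ x) with hg
  have hgs : ContDiff ℝ ∞ g := cut_smooth (hU.sdiff hSc) hθs hθt
    ((hw.mono fun x hx => hx.1).mul (hφ.mono hUS))
  have hgc : HasCompactSupport g := hθc.mul_right
  obtain ⟨Kθ, hKθ⟩ := ContDiff.lipschitzWith_of_hasCompactSupport hgc hgs (by simp)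
  obtain ⟨M1, hM1⟩ := hκ.continuous.bounded_above_of_compact_support hκc
  obtain ⟨M2, hM2⟩ := hgs.continuous.bounded_above_of_compact_support hgc
  obtain ⟨K3, hK3⟩ := lip_mul (M1 := M1) (M2 := M2) hκ hKθ (fun x => by simpa using hM1 x)
    (fun x => by simpa using hM2 x)
  set ψ : E → ℝ := fun x => κ x * g x with hψ
  have hψc : HasCompactSupport ψ := hκc.mul_right
  have hψt : tsupport ψ ⊆ Ω \ S :=
    ((tsupport_mul_subset_right.trans tsupport_mul_subset_left).trans hθt).trans hUS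
  have hψκ : tsupport ψ ⊆ tsupport κ := tsupport_mul_subset_left
  have hψeq : ∀ z, ψ z = κ z * (w z * φ z) := by
    intro z
    by_cases hzK : z ∈ tsupport κ
    · by_cases hz1 : z ∈ interior {x | w x = 0}
      · have : z ∈ {x | w x = 0} := interior_subset hz1
        have : w z = 0 := this
        simp only [ψ, g, this, zero_mul, mul_zero]
      · have : θ z = 1 := hθ1.self_of_nhdsSet z ⟨hzK, hz1⟩
        simp only [ψ, g, this, one_mul]
    · simp only [ψ, image_eq_zero_of_notMem_tsupport hzK, zero_mul]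
  have hgrh : ContinuousOn (gr h) (Ω \ S) := gr_cont hOo hW.harm.1
  have hzero : ∫ y in D, ⟪gr h y, gr ψ y⟫ = 0 := ff_sum hgrh hFF hK3 hψc hψt
  have hzero' : ∫ y in D ∩ Ω, fderiv ℝ ψ y (gr h y) = 0 := by
    rw [← hzero]
    have h1 : ∫ y in D, ⟪gr h y, gr ψ y⟫ = ∫ y in D, fderiv ℝ ψ y (gr h y) := by
      congr 1; ext y; rw [inner_gr']
    rw [h1]
    symm
    refine setIntegral_eq_of_subset_of_forall_sdiff_eq_zero hD.measurableSet inter_subset_left ?_
    intro x hx
    have : x ∉ tsupport ψ := fun hh => hx.2 ⟨hx.1, (hψt hh).1⟩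
    rw [fderiv_out this]; simp
  rw [← hzero']
  have hDΩm : MeasurableSet (D ∩ Ω) := hD.measurableSet.inter hΩ.measurableSet
  have hSae : ∀ᵐ x ∂(volume : Measure E), x ∉ S := by
    rw [ae_iff]; simpa only [not_not, ofPred_mem_eq] using hS0
  refine integral_congr_ae ((ae_restrict_iff' hDΩm).2 ?_)
  filter_upwards [hSae, hκ.ae_differentiableAt (μ := (volume : Measure E))] with x hxS hκd hxD
  rw [inner_gr', inner_gr']
  by_cases hxU : x ∈ U
  · have hxO : x ∈ Ω \ S := ⟨hxD.2, hxS⟩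
    have hφd : DifferentiableAt ℝ φ x := (hφ.contDiffAt (hOo.mem_nhds hxO)).differentiableAt (by simp)
    have hwd : DifferentiableAt ℝ w x := (hw.contDiffAt (hU.mem_nhds hxU)).differentiableAt (by simp)
    have he : ψ = fun z => κ z * (w z * φ z) := funext hψeq
    have h1 : HasFDerivAt (fun z => κ z * (w z * φ z)) _ x :=
      hκd.hasFDerivAt.mul (hwd.hasFDerivAt.mul hφd.hasFDerivAt)
    rw [he, h1.fderiv]
    simp only [add_apply, smul_apply, smul_eq_mul]
    ring
  · have hxκ : x ∉ tsupport κ := fun hh => hxU (hκU hh)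
    rw [fderiv_out (fun hh => hxκ (hψκ hh)), fderiv_out hxκ, image_eq_zero_of_notMem_tsupport hxκ]
    simp

/-- integrability of the pairing -/
theorem pair_int {Ω S : Set E} {h κ φ : E → ℝ} {K1 : ℝ≥0} {M : ℝ} (hΩ : IsOpen Ω)
    (hΩb : Bornology.IsBounded Ω) (hSc : IsClosed S)
    (hS0 : volume S = 0) (hW : WN Ω S h) (hκ : LipschitzWith K1 κ) (hκc : HasCompactSupport κ)
    (hφ : ContDiffOn ℝ ∞ φ (Ω \ S)) (hM : ∀ x, |φ x| ≤ M) (hgφ : MemLp (gr φ) 2 (volume.restrict Ω)) :
    Integrable (fun x => κ x * ⟪gr h x, gr φ x⟫ + φ x * ⟪gr h x, gr κ x⟫) (volume.restrict Ω) := by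
  have hOo : IsOpen (Ω \ S) := hΩ.sdiff hSc
  have hfin : IsFiniteMeasure (volume.restrict Ω) := ⟨by
    rw [Measure.restrict_apply_univ]; exact hΩb.measure_lt_top⟩
  have hG : Integrable (fun x => ⟪gr h x, gr φ x⟫) (volume.restrict Ω) := inner_int hW.g2 hgφ
  obtain ⟨M1, hM1⟩ := hκ.continuous.bounded_above_of_compact_support hκc
  have hgκ : MemLp (gr κ) 2 (volume.restrict Ω) :=
    MemLp.of_bound (gr_meas κ).aestronglyMeasurable K1 (Eventually.of_forall fun x => norm_gr_le hκ x)
  have hG2 : Integrable (fun x => ⟪gr h x, gr κ x⟫) (volume.restrict Ω) := inner_int hW.g2 hgκ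
  have hres : volume.restrict Ω = volume.restrict (Ω \ S) := by
    refine Measure.restrict_congr_set ?_
    have : (Ω \ S : Set E) =ᵐ[volume] Ω := sdiff_null_ae_eq_self hS0
    exact this.symm
  have hφm : AEStronglyMeasurable φ (volume.restrict Ω) := by
    rw [hres]
    exact hφ.continuousOn.aestronglyMeasurable hOo.measurableSet
  refine Integrable.add ?_ ?_
  · exact hG.bdd_mul (c := M1) hκ.continuous.aestronglyMeasurable (Eventually.of_forall fun x => hM1 x)
  · exact hG2.bdd_mul (c := M) hφm (Eventually.of_forall fun x => by rw [Real.norm_eq_abs]; exact hM x)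

theorem fml (hFCL : T_FCL) (hEDC : T_EDC) : T_FML := by
  intro Ω S h D p hΩ hΩb hC hW hD hFF hp hpe
  have hSc : IsClosed S := hC.cpt.isClosed
  obtain ⟨-, -, -, hint, hS0⟩ := hEDC Ω S hC
  have hOo : IsOpen (Ω \ S) := hΩ.sdiff hSc
  by_cases hpS : p ∈ S
  · obtain ⟨-, Ψ0, hp0, hp00, hs0, hss0, hfl0⟩ := hint p hpS hpe
    set Ψ := Ψ0.restrOpen Ω hΩ with hΨ
    have hsrc : Ψ.source = Ψ0.source ∩ Ω := by rw [hΨ, OpenPartialHomeomorph.restrOpen_source]
    have hsrc0 : Ψ.source ⊆ Ψ0.source := by rw [hsrc]; exact inter_subset_left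
    have htgt0 : Ψ.target ⊆ Ψ0.target := by
      intro y hy
      have h1 : Ψ.symm y ∈ Ψ.source := Ψ.map_target hy
      have h2 : Ψ (Ψ.symm y) = y := Ψ.right_inv hy
      rw [← h2]
      exact Ψ0.map_source (hsrc0 h1)
    have hpΨ : p ∈ Ψ.source := by rw [hsrc]; exact ⟨hp0, hp⟩
    have hcoe : ∀ x, Ψ x = Ψ0 x := fun x => rfl
    have hsm : ContDiffOn ℝ ∞ Ψ Ψ.source := hs0.mono hsrc0
    have hsms : ContDiffOn ℝ ∞ Ψ.symm Ψ.target := hss0.mono htgt0
    have hΨΩ : Ψ.source ⊆ Ω := by rw [hsrc]; exact inter_subset_right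
    have hfl : ∀ x ∈ Ψ.source, x ∈ S ↔ (Ψ x) 2 = 0 := fun x hx =>
      (hfl0 x (hsrc0 hx)).trans ⟨fun hh => hh.1, fun hh => ⟨hh, fun hf => hf.elim⟩⟩
    obtain ⟨r, hr, hrs, hWi, hlim⟩ := hFCL Ω S h Ψ p hΩ hΩb hSc hW hpΨ ((hfl p hpΨ).1 hpS) hΨΩ hsm hsms hfl
    have hbs : ball p r ⊆ Ψ.source := ball_subset_closedBall.trans hrs
    refine ⟨r, hr, hbs.trans hΨΩ, ?_⟩
    intro κ φ ⟨K1, hκ⟩ hκc hκU hφ ⟨M, hM⟩ hgφ
    have hM0 : 0 ≤ M := (abs_nonneg _).trans (hM 0)
    obtain ⟨M1, hM1⟩ := hκ.continuous.bounded_above_of_compact_support hκc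
    have hM10 : 0 ≤ M1 := (norm_nonneg _).trans (hM1 0)
    obtain ⟨C, hC0, hCb⟩ := bet_deriv_bound
    set w : ℝ → E → ℝ := fun d x => 1 - bet ((Ψ x) 2 / d) with hw
    have hk2 : ContDiffOn ℝ ∞ (fun x => (Ψ x) 2) Ψ.source := (coord_contDiff 2).comp_contDiffOn hsm
    have hwsm : ∀ d, ContDiffOn ℝ ∞ (w d) (ball p r) := fun d =>
      contDiffOn_const.sub (bet_contDiff.comp_contDiffOn ((hk2.mono hbs).div_const d))
    have hwS : ∀ d, 0 < d → ∀ x ∈ ball p r, x ∈ S → ∀ᶠ z in 𝓝 x, w d z = 0 := by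
      intro d hd x hx hxS
      have hxs : x ∈ Ψ.source := hbs hx
      have hc1 : ContinuousAt (fun z => |(Ψ z) 2|) x :=
        (hk2.continuousOn.continuousAt (Ψ.open_source.mem_nhds hxs)).abs
      have hv : (fun z => |(Ψ z) 2|) x < d := by
        simp only [(hfl x hxs).1 hxS, abs_zero]; exact hd
      filter_upwards [hc1.eventually_lt_const hv] with z hz
      simp only [w]
      rw [bet_one, sub_self]
      rw [abs_div, abs_of_pos hd, div_le_one hd]
      exact hz.le
    set f : E → ℝ := fun x => κ x * ⟪gr h x, gr φ x⟫ + φ x * ⟪gr h x, gr κ x⟫ with hf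
    have hfi : Integrable f (volume.restrict Ω) := pair_int hΩ hΩb hSc hS0 hW hκ hκc hφ hM hgφ
    have hsub : volume.restrict (D ∩ Ω) ≤ volume.restrict Ω := Measure.restrict_mono inter_subset_right le_rfl
    have hfi' := hfi.mono_measure hsub
    have hDΩm : MeasurableSet (D ∩ Ω) := hD.measurableSet.inter hΩ.measurableSet
    have hSae : ∀ᵐ x ∂(volume : Measure E), x ∉ S := by
      rw [ae_iff]; simpa only [not_not, ofPred_mem_eq] using hS0
    -- cut off version of f
    have hf0 : ∀ x, x ∉ tsupport κ → f x = 0 := by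
      intro x hx
      simp only [f]
      rw [inner_gr' κ, fderiv_out hx, image_eq_zero_of_notMem_tsupport hx]
      simp
    have hR : ∀ d : ℝ, MeasurableSet (ball p r ∩ {x | |(Ψ x) 2| < d ∧ (Ψ x) 2 ≠ 0}) := by
      intro d
      have hcb : ContinuousOn (fun x => (Ψ x) 2) (ball p r) := (hk2.mono hbs).continuousOn
      have ho1 : IsOpen {t : ℝ | |t| < d ∧ t ≠ 0} :=
        IsOpen.inter (isOpen_lt continuous_abs continuous_const) isOpen_ne
      exact (hcb.isOpen_inter_preimage isOpen_ball ho1).measurableSet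
    set W : E → ℝ := fun x => |⟪gr h x, gr (fun z => (Ψ z) 2) x⟫| with hWd
    have hWi' : IntegrableOn W (ball p r) := hWi.norm
    have hcont1 : ∀ d, ContinuousOn (w d) (ball p r) := fun d => (hwsm d).continuousOn
    have hw01 : ∀ d x, |w d x| ≤ 1 := by
      intro d x
      simp only [w]
      rw [abs_of_nonneg (by linarith [bet_le_one ((Ψ x) 2 / d)])]
      linarith [bet_nonneg ((Ψ x) 2 / d)]
    have hfeq : ∀ d, (fun x => w d x * f x) = (tsupport κ).indicator (fun x => w d x * f x) := by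
      intro d
      ext x
      by_cases hx : x ∈ tsupport κ
      · rw [indicator_of_mem hx]
      · rw [indicator_of_notMem hx, hf0 x hx, mul_zero]
    have hwm : ∀ d, AEStronglyMeasurable (fun x => w d x * f x) (volume.restrict (D ∩ Ω)) := by
      intro d
      rw [hfeq d, aestronglyMeasurable_indicator_iff (isClosed_tsupport κ).measurableSet]
      refine AEStronglyMeasurable.mul ?_ hfi'.1.restrict
      refine AEStronglyMeasurable.mono_measure ?_ (Measure.restrict_mono_measure Measure.restrict_le_self _)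
      exact ((hcont1 d).mono hκU).aestronglyMeasurable (isClosed_tsupport κ).measurableSet
    have hwi : ∀ d, Integrable (fun x => w d x * f x) (volume.restrict (D ∩ Ω)) := by
      intro d
      refine hfi'.norm.mono' (hwm d) (Eventually.of_forall fun x => ?_)
      rw [norm_mul]
      exact mul_le_of_le_one_left (norm_nonneg _) (by rw [Real.norm_eq_abs]; exact hw01 d x)
    -- pointwise bound of the third term
    have hpt : ∀ d, 0 < d → ∀ x, x ∉ S → |φ x * κ x * fderiv ℝ (w d) x (gr h x)|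
        ≤ M * M1 * (C / d) * (ball p r ∩ {x | |(Ψ x) 2| < 2 * d ∧ (Ψ x) 2 ≠ 0}).indicator W x := by
      intro d hd x hxS
      have hInd : 0 ≤ (ball p r ∩ {x | |(Ψ x) 2| < 2 * d ∧ (Ψ x) 2 ≠ 0}).indicator W x :=
        indicator_nonneg (fun z _ => abs_nonneg _) x
      have hRHS : 0 ≤ M * M1 * (C / d) * (ball p r ∩ {x | |(Ψ x) 2| < 2 * d ∧ (Ψ x) 2 ≠ 0}).indicator W x := by
        positivity
      by_cases hκ0 : κ x = 0
      · rw [hκ0, mul_zero, zero_mul, abs_zero]; exact hRHS
      have hxb : x ∈ ball p r := hκU (subset_tsupport _ hκ0)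
      have hxs : x ∈ Ψ.source := hbs hxb
      have hd2 : DifferentiableAt ℝ (fun z => (Ψ z) 2) x :=
        (hk2.contDiffAt (Ψ.open_source.mem_nhds hxs)).differentiableAt (by simp)
      have h3 : HasFDerivAt (w d)
          (-(deriv bet ((Ψ x) 2 / d) • (d⁻¹ • fderiv ℝ (fun z => (Ψ z) 2) x))) x := by
        have h4 : HasFDerivAt (fun z => (Ψ z) 2 / d) (d⁻¹ • fderiv ℝ (fun z => (Ψ z) 2) x) x := by
          simpa only [div_eq_inv_mul] using hd2.hasFDerivAt.const_mul d⁻¹
        have h5 : HasDerivAt bet (deriv bet ((Ψ x) 2 / d)) ((Ψ x) 2 / d) :=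
          (bet_contDiff.differentiable (by simp)).differentiableAt.hasDerivAt
        have h6 := h5.comp_hasFDerivAt x h4
        have h7 := (hasFDerivAt_const (1 : ℝ) x).sub h6
        rw [zero_sub] at h7
        exact h7
      by_cases hbig : 2 * d ≤ |(Ψ x) 2|
      · have hb0 : bet ((Ψ x) 2 / d) = 0 := bet_zero (by
          rw [abs_div, abs_of_pos hd, le_div_iff₀ hd]; exact hbig)
        have : deriv bet ((Ψ x) 2 / d) = 0 := by
          refine IsLocalMin.deriv_eq_zero ?_
          exact Eventually.of_forall fun z => by rw [hb0]; exact bet_nonneg z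
        rw [h3.fderiv, this]
        simp only [zero_smul, neg_zero, zero_apply, mul_zero, abs_zero]
        exact hRHS
      push Not at hbig
      have hx20 : (Ψ x) 2 ≠ 0 := fun hh => hxS ((hfl x hxs).2 hh)
      have hxR : x ∈ ball p r ∩ {x | |(Ψ x) 2| < 2 * d ∧ (Ψ x) 2 ≠ 0} := ⟨hxb, hbig, hx20⟩
      rw [indicator_of_mem hxR, h3.fderiv]
      simp only [neg_apply, smul_apply, smul_eq_mul]
      have h8 : |fderiv ℝ (fun z => (Ψ z) 2) x (gr h x)| = W x := by
        simp only [W]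
        rw [inner_gr']
      rw [abs_mul, abs_mul, abs_neg, abs_mul, abs_mul, h8, abs_of_pos (inv_pos.2 hd)]
      have h9 := hCb ((Ψ x) 2 / d)
      have h10 : |κ x| ≤ M1 := by have := hM1 x; rwa [Real.norm_eq_abs] at this
      have h11 := hM x
      have hWx : 0 ≤ W x := abs_nonneg _
      calc |φ x| * |κ x| * (|deriv bet ((Ψ x) 2 / d)| * (d⁻¹ * W x)) ≤ M * M1 * (C * (d⁻¹ * W x)) := by
            gcongr
        _ = M * M1 * (C / d) * W x := by rw [div_eq_mul_inv]; ring
    -- the bound for the integrals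
    have hb : ∀ d, 0 < d → |∫ x in D ∩ Ω, w d x * f x| ≤ M * M1 * (2 * C) *
        ((2 * d)⁻¹ * ∫ x in ball p r ∩ {x | |(Ψ x) 2| < 2 * d ∧ (Ψ x) 2 ≠ 0}, W x) := by
      intro d hd
      have h1 := core1 (w := w d) hΩ hSc hS0 hW hD hFF hκ hκc isOpen_ball (hbs.trans hΨΩ) hκU hφ (hwsm d)
        (hwS d hd)
      have hbi : Integrable (fun x => M * M1 * (C / d) *
          (ball p r ∩ {x | |(Ψ x) 2| < 2 * d ∧ (Ψ x) 2 ≠ 0}).indicator W x) (volume.restrict (D ∩ Ω)) :=
        (((integrable_indicator_iff (hR (2 * d))).2 (hWi'.mono_set inter_subset_left)).integrableOn).const_mul _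
      have hti : Integrable (fun x => φ x * κ x * fderiv ℝ (w d) x (gr h x)) (volume.restrict (D ∩ Ω)) := by
        refine hbi.mono' ?_ (ae_restrict_of_ae ?_)
        · have hres : volume.restrict Ω = volume.restrict (Ω \ S) := by
            refine Measure.restrict_congr_set ?_
            have : (Ω \ S : Set E) =ᵐ[volume] Ω := sdiff_null_ae_eq_self hS0
            exact this.symm
          have hφm : AEStronglyMeasurable φ (volume.restrict Ω) := by
            rw [hres]
            exact hφ.continuousOn.aestronglyMeasurable hOo.measurableSet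
          refine AEStronglyMeasurable.mul ((hφm.mono_measure hsub).mul hκ.continuous.aestronglyMeasurable) ?_
          have h2 : AEStronglyMeasurable (gr h) (volume.restrict (D ∩ Ω)) := (gr_meas h).aestronglyMeasurable
          have h3 : AEStronglyMeasurable (fderiv ℝ (w d)) (volume.restrict (D ∩ Ω)) :=
            (measurable_fderiv ℝ (w d)).aestronglyMeasurable
          exact (ContinuousLinearMap.apply ℝ ℝ).flip.aestronglyMeasurable_comp₂ h3 h2
        · filter_upwards [hSae] with x hx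
          rw [Real.norm_eq_abs]
          exact hpt d hd x hx
      rw [integral_add (hwi d) hti] at h1
      have h2 : ∫ x in D ∩ Ω, w d x * f x = - ∫ x in D ∩ Ω, φ x * κ x * fderiv ℝ (w d) x (gr h x) := by
        linarith
      rw [h2, abs_neg]
      calc |∫ x in D ∩ Ω, φ x * κ x * fderiv ℝ (w d) x (gr h x)| ≤ ∫ x in D ∩ Ω, M * M1 * (C / d) *
          (ball p r ∩ {x | |(Ψ x) 2| < 2 * d ∧ (Ψ x) 2 ≠ 0}).indicator W x := by
            rw [← Real.norm_eq_abs]
            refine norm_integral_le_of_norm_le hbi (ae_restrict_of_ae ?_)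
            filter_upwards [hSae] with x hx
            rw [Real.norm_eq_abs]
            exact hpt d hd x hx
        _ ≤ M * M1 * (C / d) * ∫ x in ball p r ∩ {x | |(Ψ x) 2| < 2 * d ∧ (Ψ x) 2 ≠ 0}, W x := by
            rw [integral_const_mul]
            have h3 : ∫ x in D ∩ Ω, (ball p r ∩ {x | |(Ψ x) 2| < 2 * d ∧ (Ψ x) 2 ≠ 0}).indicator W x
                ≤ ∫ x in ball p r ∩ {x | |(Ψ x) 2| < 2 * d ∧ (Ψ x) 2 ≠ 0}, W x := by
              rw [← integral_indicator (hR (2 * d))]
              exact setIntegral_le_integral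
                ((integrable_indicator_iff (hR (2 * d))).2 (hWi'.mono_set inter_subset_left))
                (Eventually.of_forall fun x => indicator_nonneg (fun z _ => abs_nonneg _) x)
            gcongr
        _ = _ := by field_simp
    have hlimR : Tendsto (fun d : ℝ => M * M1 * (2 * C) *
        ((2 * d)⁻¹ * ∫ x in ball p r ∩ {x | |(Ψ x) 2| < 2 * d ∧ (Ψ x) 2 ≠ 0}, W x)) (𝓝[>] 0) (𝓝 0) := by
      have h2 : Tendsto (fun d : ℝ => 2 * d) (𝓝[>] 0) (𝓝[>] 0) := by
        refine tendsto_nhdsWithin_iff.2 ⟨two_mul_tendsto, ?_⟩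
        filter_upwards [self_mem_nhdsWithin] with d hd
        have : (0 : ℝ) < d := hd
        simp only [mem_Ioi]; linarith
      have h3 := (hlim.comp h2).const_mul (M * M1 * (2 * C))
      rw [mul_zero] at h3
      exact h3
    have hlimL : Tendsto (fun d : ℝ => ∫ x in D ∩ Ω, w d x * f x) (𝓝[>] 0) (𝓝 (∫ x in D ∩ Ω, f x)) := by
      refine tendsto_integral_filter_of_dominated_convergence (fun x => ‖f x‖)
        (Eventually.of_forall fun d => hwm d) ?_ hfi'.norm ?_
      · refine Eventually.of_forall fun d => Eventually.of_forall fun x => ?_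
        rw [norm_mul]
        exact mul_le_of_le_one_left (norm_nonneg _) (by rw [Real.norm_eq_abs]; exact hw01 d x)
      · refine (ae_restrict_iff' hDΩm).2 ?_
        filter_upwards [hSae] with x hxS hx
        refine (tendsto_congr' ?_).2 tendsto_const_nhds
        by_cases hxκ : x ∈ tsupport κ
        · have hxs : x ∈ Ψ.source := hbs (hκU hxκ)
          have hx20 : (Ψ x) 2 ≠ 0 := fun hh => hxS ((hfl x hxs).2 hh)
          have hev2 : ∀ᶠ d in 𝓝[>] (0 : ℝ), 2 * d < |(Ψ x) 2| :=
            two_mul_tendsto.eventually_lt_const (abs_pos.2 hx20)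
          filter_upwards [hev2, self_mem_nhdsWithin] with d hd hd0
          have hd0' : 0 < d := hd0
          simp only [w]
          rw [bet_zero, sub_zero, one_mul]
          rw [abs_div, abs_of_pos hd0', le_div_iff₀ hd0']
          exact hd.le
        · exact Eventually.of_forall fun d => by simp only [hf0 x hxκ, mul_zero]
    have h3 : |∫ x in D ∩ Ω, f x| ≤ 0 := by
      refine le_of_tendsto_of_tendsto hlimL.abs hlimR ?_
      filter_upwards [self_mem_nhdsWithin] with d hd
      exact hb d hd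
    exact abs_nonpos_iff.1 h3
  · obtain ⟨r, hr, hrb⟩ := Metric.isOpen_iff.1 hOo p ⟨hp, hpS⟩
    refine ⟨r, hr, fun x hx => (hrb hx).1, ?_⟩
    intro κ φ ⟨K1, hκ⟩ hκc hκU hφ _ _
    have h1 := core1 (w := fun _ => 1) hΩ hSc hS0 hW hD hFF hκ hκc isOpen_ball (fun x hx => (hrb hx).1) hκU hφ
      contDiffOn_const (fun x hx hxS => absurd hxS (hrb hx).2)
    rw [← h1]
    congr 1
    ext x
    have : fderiv ℝ (fun _ : E => (1 : ℝ)) x = 0 := by simp
    rw [this, one_mul]
    simp

end Pool.Agent.H4.ICA
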