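import Mathlib
import Pool.Agent.H94.AC.Targets
import Pool.Agent.H4.ICA.FML

/-!
# A crack without jump is removable (MP_0ee698_an, module RMC)
-/

open MeasureTheory Set Filter Topology Metric
open scoped ENNReal NNReal ContDiff RealInnerProductSpace Manifold
open Pool.Agent.H94.IC Pool.Agent.H94.AC Pool.Agent.H89.IC

namespace Pool.Agent.H4.ICA

theorem dv_cont {X : E → E} (hX : ContDiff ℝ ∞ X) : Continuous (dv X) := by
  unfold dv
  refine continuous_finsetSum _ fun k _ => ?_
  have h1 : Continuous fun x => fderiv ℝ X x (ev k) :=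
    (hX.continuous_fderiv (by simp)).clm_apply continuous_const
  exact (coord_contDiff k).continuous.comp h1

theorem smul_cs (κ : E → ℝ) {X : E → E} (hXc : HasCompactSupport X) : HasCompactSupport (fun x => κ x • X x) :=
  HasCompactSupport.smul_left (f := κ) hXc

theorem dv_out {X : E → E} {x : E} (hx : x ∉ tsupport X) : dv X x = 0 := by
  have h0 : X =ᶠ[𝓝 x] fun _ => 0 := by
    filter_upwards [(isClosed_tsupport X).isOpen_compl.mem_nhds hx] with z hz
    exact image_eq_zero_of_notMem_tsupport hz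
  have h1 : fderiv ℝ X x = 0 := by rw [h0.fderiv_eq]; simp
  unfold dv
  rw [h1]
  simp

theorem dv_bdd {X : E → E} (hX : ContDiff ℝ ∞ X) (hXc : HasCompactSupport X) : ∃ M, ∀ x, ‖dv X x‖ ≤ M := by
  refine (dv_cont hX).bounded_above_of_compact_support ?_
  refine hXc.of_isClosed_subset (isClosed_tsupport _) (closure_minimal (fun x hx => ?_) (isClosed_tsupport X))
  by_contra hh
  exact hx (dv_out hh)

theorem fderiv_vec (κ : E → ℝ) (x v : E) : fderiv ℝ κ x v = ∑ k : Fin 3, fderiv ℝ κ x (ev k) * v k := by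
  conv_lhs => rw [sum_ev v, map_sum]
  refine Finset.sum_congr rfl fun k _ => ?_
  rw [map_smul, smul_eq_mul, mul_comm]

theorem dv_smul {κ : E → ℝ} {X : E → E} {x : E} (hκ : DifferentiableAt ℝ κ x) (hX : DifferentiableAt ℝ X x) :
    dv (fun z => κ z • X z) x = κ x * dv X x + ⟪gr κ x, X x⟫ := by
  have h1 : HasFDerivAt (fun z => κ z • X z) _ x := hκ.hasFDerivAt.smul hX.hasFDerivAt
  unfold dv
  rw [h1.fderiv, inner_gr, fderiv_vec κ x (X x), Finset.mul_sum, ← Finset.sum_add_distrib]
  refine Finset.sum_congr rfl fun k _ => ?_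
  simp

/-- the interior functional has an integrable integrand -/
theorem A_int {Ω : Set E} {h : E → ℝ} {X : E → E} (hΩb : Bornology.IsBounded Ω)
    (h2 : MemLp h 2 (volume.restrict Ω)) (g2 : MemLp (gr h) 2 (volume.restrict Ω))
    (hX : ContDiff ℝ ∞ X) (hXc : HasCompactSupport X) :
    Integrable (fun x => h x * dv X x + ⟪gr h x, X x⟫) (volume.restrict Ω) := by
  have hfin : IsFiniteMeasure (volume.restrict Ω) := ⟨by
    rw [Measure.restrict_apply_univ]; exact hΩb.measure_lt_top⟩
  obtain ⟨M1, hM1⟩ := dv_bdd hX hXc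
  obtain ⟨M2, hM2⟩ := hX.continuous.bounded_above_of_compact_support hXc
  refine Integrable.add ?_ ?_
  · exact (h2.integrable (by norm_num)).mul_bdd (c := M1) (dv_cont hX).aestronglyMeasurable
      (Eventually.of_forall hM1)
  · exact inner_int g2 (MemLp.of_bound hX.continuous.aestronglyMeasurable M2 (Eventually.of_forall hM2))

/-- the boundary functional has an integrable integrand -/
theorem B_int {Ω : Set E} {σ : Measure E} {ν : E → E} {τ : E → ℝ} {X : E → E} (hσ : IsSurf Ω σ ν)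
    (t2 : MemLp τ 2 σ) (hX : ContDiff ℝ ∞ X) (hXc : HasCompactSupport X) :
    Integrable (fun x => τ x * ⟪X x, ν x⟫) σ := by
  have hfin := hσ.fin
  obtain ⟨M2, hM2⟩ := hX.continuous.bounded_above_of_compact_support hXc
  refine (t2.integrable (by norm_num)).mul_bdd (c := M2)
    (hX.continuous.aestronglyMeasurable.inner hσ.meas) ?_
  filter_upwards [hσ.unit] with x hx
  have h1 := norm_inner_le_norm (𝕜 := ℝ) (X x) (ν x)
  rw [hx, mul_one] at h1
  exact h1.trans (hM2 x)

/-- part A: fields supported off the edge -/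
theorem partA {Ω S Z : Set E} {σ : Measure E} {ν : E → E} {h τ : E → ℝ} (hΩ : IsOpen Ω)
    (hΩb : Bornology.IsBounded Ω) (hσ : IsSurf Ω σ ν) (hSc : IsClosed S)
    (hint : ∀ p ∈ S, p ∉ Z → p ∈ intPts S) (hNJ : ∀ p ∈ intPts S, NJ Ω h p)
    (hs : HS1 Ω S σ ν h (gr h) τ) {X : E → E} (hX : ContDiff ℝ ∞ X) (hXc : HasCompactSupport X)
    (hXZ : Disjoint (tsupport X) Z) :
    ∫ x in Ω, (h x * dv X x + ⟪gr h x, X x⟫) = ∫ x, τ x * ⟪X x, ν x⟫ ∂σ := by
  have hfr : ∀ᵐ x ∂σ, x ∈ frontier Ω := by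
    rw [ae_iff]; exact hσ.supp
  have hex : ∀ p : tsupport X, ∃ r > 0, ∀ Y : E → E, ContDiff ℝ ∞ Y → HasCompactSupport Y →
      tsupport Y ⊆ ball (p : E) r →
      ∫ x in Ω, (h x * dv Y x + ⟪gr h x, Y x⟫) = ∫ x, τ x * ⟪Y x, ν x⟫ ∂σ := by
    rintro ⟨p, hp⟩
    by_cases hpS : p ∈ S
    · obtain ⟨r, hr, hrΩ, hJ⟩ := hNJ p (hint p hpS (disjoint_left.1 hXZ hp))
      refine ⟨r, hr, fun Y hY hYc hYs => ?_⟩
      have h1 := hJ Y hY hYc hYs
      unfold JX at h1
      rw [h1]
      symm
      refine integral_eq_zero_of_ae ?_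
      filter_upwards [hfr] with x hx
      have hxΩ : x ∉ Ω := fun hh => by
        rw [hΩ.frontier_eq] at hx
        exact hx.2 hh
      have : Y x = 0 := image_eq_zero_of_notMem_tsupport fun hh => hxΩ (hrΩ (hYs hh))
      rw [this]
      simp
    · obtain ⟨r, hr, hrb⟩ := Metric.isOpen_iff.1 hSc.isOpen_compl p hpS
      refine ⟨r, hr, fun Y hY hYc hYs => hs.tr Y hY hYc ?_⟩
      exact disjoint_left.2 fun x hx => hrb (hYs hx)
  choose r hr hr0 using hex
  obtain ⟨t, ht⟩ := hXc.isCompact.elim_finite_subcover (fun x : tsupport X => ball (x : E) (r x))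
    (fun x => isOpen_ball) (fun x hx => mem_iUnion.2 ⟨⟨x, hx⟩, mem_ball_self (hr ⟨x, hx⟩)⟩)
  obtain ⟨f, hf⟩ := SmoothPartitionOfUnity.exists_isSubordinate 𝓘(ℝ, E) (isClosed_tsupport X)
    (fun i : t => ball ((i : tsupport X) : E) (r (i : tsupport X))) (fun i => isOpen_ball)
    (fun x hx => by
      obtain ⟨i, hi, hxi⟩ := mem_iUnion₂.1 (ht hx)
      exact mem_iUnion.2 ⟨⟨i, hi⟩, hxi⟩)
  have hfs : ∀ i : t, tsupport (f i) ⊆ ball ((i : tsupport X) : E) (r (i : tsupport X)) := fun i => hf i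
  have hfsm : ∀ i : t, ContDiff ℝ ∞ (f i) := fun i => (f i).contMDiff.contDiff
  have hYs : ∀ i : t, ContDiff ℝ ∞ (fun x => f i x • X x) := fun i => (hfsm i).smul hX
  have hYc : ∀ i : t, HasCompactSupport (fun x => f i x • X x) := fun i => smul_cs _ hXc
  have hYt : ∀ i : t, tsupport (fun x => f i x • X x) ⊆ ball ((i : tsupport X) : E) (r (i : tsupport X)) :=
    fun i => (tsupport_smul_subset_left _ _).trans (hfs i)
  have hsum : ∀ x, X x = ∑ i : t, f i x • X x := by
    intro x
    rw [← Finset.sum_smul]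
    by_cases hx : x ∈ tsupport X
    · have := f.sum_eq_one hx
      rw [finsum_eq_sum_of_fintype] at this
      rw [this, one_smul]
    · rw [image_eq_zero_of_notMem_tsupport hx, smul_zero]
  have hdv : ∀ x, dv X x = ∑ i : t, dv (fun x => f i x • X x) x := by
    intro x
    have h2 : HasFDerivAt (fun z => ∑ i : t, f i z • X z) (∑ i : t, fderiv ℝ (fun z => f i z • X z) x) x := by
      refine HasFDerivAt.fun_sum fun i _ => ?_
      exact (((hYs i).differentiable (by simp)).differentiableAt).hasFDerivAt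
    have h3 : (fun z => ∑ i : t, f i z • X z) = X := by ext1 z; exact (hsum z).symm
    rw [h3] at h2
    unfold dv
    rw [h2.fderiv, Finset.sum_comm]
    refine Finset.sum_congr rfl fun k _ => ?_
    simp only [FunLike.coe_sum, Finset.sum_apply, WithLp.ofLp_sum]
  have e1 : ∫ x in Ω, (h x * dv X x + ⟪gr h x, X x⟫)
      = ∫ x in Ω, ∑ i : t, (h x * dv (fun x => f i x • X x) x + ⟪gr h x, f i x • X x⟫) := by
    congr 1
    ext x
    rw [hdv x, Finset.sum_add_distrib, ← Finset.mul_sum, ← inner_sum, ← hsum x]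
  have e2 : ∫ x, τ x * ⟪X x, ν x⟫ ∂σ = ∫ x, ∑ i : t, τ x * ⟪f i x • X x, ν x⟫ ∂σ := by
    congr 1
    ext x
    rw [← Finset.mul_sum, ← sum_inner, ← hsum x]
  rw [e1, e2, integral_finsetSum _ (fun i _ => A_int hΩb hs.u2 hs.F2 (hYs i) (hYc i)),
    integral_finsetSum _ (fun i _ => B_int hσ hs.t2 (hYs i) (hYc i))]
  exact Finset.sum_congr rfl fun i _ => hr0 i _ (hYs i) (hYc i) (hYt i)

theorem rmc (hCUT : T_CUT) (hTBC : T_TBC) (hEDC : T_EDC) : T_RMC := by
  intro Ω S σ ν h τ hΩ hΩb hσ hC hNJ hs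
  obtain ⟨hZc, hZn, hZS, hint, hS0⟩ := hEDC Ω S hC
  obtain ⟨C0, hC0⟩ := hTBC Ω S hC
  have hSc : IsClosed S := hC.cpt.isClosed
  set Z : Set E := edgePts S with hZ
  have hZ0 : volume Z = 0 := measure_mono_null hZS hS0
  refine ⟨hs.u2, hs.F2, hs.t2, fun X hX hXc _ => ?_⟩
  have hfin : IsFiniteMeasure (volume.restrict Ω) := ⟨by
    rw [Measure.restrict_apply_univ]; exact hΩb.measure_lt_top⟩
  set e : ℕ → ℝ := fun n => 1 / ((n : ℝ) + 1) / 2 with he
  have he0 : ∀ n, 0 < e n := fun n => by have : (0 : ℝ) < 1 / ((n : ℝ) + 1) := Nat.one_div_pos_of_nat; simp only [e]; positivity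
  have he1 : ∀ n, 2 * e n ≤ 1 := fun n => by
    simp only [e]
    rw [mul_div_cancel₀ _ (by norm_num : (2 : ℝ) ≠ 0)]
    rw [div_le_one (by positivity)]
    have : (0 : ℝ) ≤ n := Nat.cast_nonneg n
    linarith
  have hlime : Tendsto e atTop (𝓝 0) := by
    have := (tendsto_one_div_add_atTop_nhds_zero_nat (𝕜 := ℝ)).div_const 2
    rwa [zero_div] at this
  choose κ hκs hκ01 hκU hκ1 hκg using fun n => hCUT Z (e n) hZc hZn (he0 n)
  obtain ⟨M, hM⟩ := hX.continuous.bounded_above_of_compact_support hXc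
  have hM0 : 0 ≤ M := (norm_nonneg _).trans (hM 0)
  set g : E → ℝ := fun x => h x * dv X x + ⟪gr h x, X x⟫ with hg
  have hgi : Integrable g (volume.restrict Ω) := A_int hΩb hs.u2 hs.F2 hX hXc
  have hti : Integrable (fun x => τ x * ⟪X x, ν x⟫) σ := B_int hσ hs.t2 hX hXc
  have hh2 : Integrable (fun x => h x ^ 2) (volume.restrict Ω) := by
    have := (memLp_two_iff_integrable_sq_norm hs.u2.1).1 hs.u2
    simpa only [Real.norm_eq_abs, sq_abs] using this
  -- points off the edge
  have hpos : ∀ x, x ∉ Z → 0 < infDist x Z := by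
    intro x hxZ
    rcases (infDist_nonneg (x := x) (s := Z)).lt_or_eq with h1 | h1
    · exact h1
    · exact absurd ((hZc.isClosed.mem_iff_infDist_zero hZn).2 h1.symm) hxZ
  have hev : ∀ x, x ∉ Z → ∀ᶠ n in atTop, e n < infDist x Z := fun x hx =>
    hlime.eventually_lt_const (hpos x hx)
  have hκlim : ∀ x, x ∉ Z → ∀ᶠ n in atTop, κ n x = 1 := fun x hx => by
    filter_upwards [hev x hx] with n hn
    exact hκ1 n x hn.le
  -- the tubes
  set T : ℕ → Set E := fun n => {x | infDist x Z ≤ e n} with hT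
  have hTm : ∀ n, MeasurableSet (T n) := fun n =>
    (isClosed_le (continuous_infDist_pt _) continuous_const).measurableSet
  have hTv : ∀ n, volume (T n) ≤ ENNReal.ofReal (|C0| * (2 * e n) ^ 2) := by
    intro n
    refine (measure_mono (fun x hx => ?_)).trans ((hC0 (2 * e n) ⟨by linarith [he0 n], he1 n⟩).trans ?_)
    · have h1 : infDist x Z ≤ e n := hx
      rw [mem_thickening_iff_infDist_lt hZn]
      linarith [he0 n]
    · exact ENNReal.ofReal_le_ofReal (by gcongr; exact le_abs_self _)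
  have hgr0 : ∀ n x, x ∉ T n → gr (κ n) x = 0 := by
    intro n x hx
    have h1 : e n < infDist x Z := not_le.1 hx
    have h2 : κ n =ᶠ[𝓝 x] fun _ => 1 := by
      filter_upwards [(isOpen_lt continuous_const (continuous_infDist_pt Z)).mem_nhds h1] with z hz
      exact hκ1 n z (le_of_lt hz)
    have h3 : fderiv ℝ (κ n) x = 0 := by rw [h2.fderiv_eq]; simp
    simp only [gr, gradient, h3, map_zero]
  -- the error term
  set b : ℕ → ℝ := fun n => ∫ x in Ω, (T n).indicator (fun x => h x ^ 2) x with hb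
  have hb0 : ∀ n, 0 ≤ b n := fun n => integral_nonneg fun x => indicator_nonneg (fun z _ => sq_nonneg _) x
  have hblim : Tendsto b atTop (𝓝 0) := by
    have h0 : (0 : ℝ) = ∫ x in Ω, (0 : ℝ) := by simp
    rw [h0]
    refine tendsto_integral_of_dominated_convergence (fun x => h x ^ 2) ?_ hh2 ?_ ?_
    · exact fun n => (hh2.1.indicator (hTm n))
    · refine fun n => Eventually.of_forall fun x => ?_
      rw [Real.norm_eq_abs, abs_of_nonneg (indicator_nonneg (fun z _ => sq_nonneg _) x)]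
      exact indicator_le_self' (fun z _ => sq_nonneg _) x
    · have hZae : ∀ᵐ x ∂(volume : Measure E), x ∉ Z := by
        rw [ae_iff]; simpa only [not_not, ofPred_mem_eq] using hZ0
      filter_upwards [ae_restrict_of_ae hZae] with x hx
      refine (tendsto_congr' ?_).2 tendsto_const_nhds
      filter_upwards [hev x hx] with n hn
      have hxn : x ∉ T n := fun hh => absurd (show infDist x Z ≤ e n from hh) (not_le.2 hn)
      exact indicator_of_notMem hxn (fun x => h x ^ 2)
  have herr : ∀ n (δ : ℝ), 0 < δ → |∫ x in Ω, h x * ⟪gr (κ n) x, X x⟫|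
      ≤ 4 * M * (δ⁻¹ * b n + 4 * |C0| * δ) := by
    intro n δ hδ
    have hen := he0 n
    have hi1 : Integrable (fun x => (T n).indicator (fun x => h x ^ 2) x) (volume.restrict Ω) :=
      hh2.indicator (hTm n)
    have hi2 : Integrable (fun x => (T n).indicator (fun _ => (1 : ℝ)) x) (volume.restrict Ω) :=
      (integrable_const 1).indicator (hTm n)
    have hbi : Integrable (fun x => 4 * M * (δ⁻¹ * (T n).indicator (fun x => h x ^ 2) x
        + δ * (e n)⁻¹ ^ 2 * (T n).indicator (fun _ => (1 : ℝ)) x)) (volume.restrict Ω) :=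
      ((hi1.const_mul _).add (hi2.const_mul _)).const_mul _
    have hpt : ∀ x, ‖h x * ⟪gr (κ n) x, X x⟫‖ ≤ 4 * M * (δ⁻¹ * (T n).indicator (fun x => h x ^ 2) x
        + δ * (e n)⁻¹ ^ 2 * (T n).indicator (fun _ => (1 : ℝ)) x) := by
      intro x
      by_cases hx : x ∈ T n
      · rw [indicator_of_mem hx, indicator_of_mem hx, norm_mul, mul_one]
        have h1 : ‖⟪gr (κ n) x, X x⟫‖ ≤ 8 / e n * M :=
          (norm_inner_le_norm _ _).trans (mul_le_mul (hκg n x) (hM x) (norm_nonneg _) (by positivity))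
        have h2 : 0 ≤ δ⁻¹ * (|h x| - δ * (e n)⁻¹) ^ 2 := by positivity
        have h3 : δ⁻¹ * (|h x| - δ * (e n)⁻¹) ^ 2 = δ⁻¹ * h x ^ 2 + δ * (e n)⁻¹ ^ 2 - 2 * (|h x| * (e n)⁻¹) := by
          rw [← sq_abs (h x)]
          field_simp
          ring
        rw [Real.norm_eq_abs (h x)]
        calc |h x| * ‖⟪gr (κ n) x, X x⟫‖ ≤ |h x| * (8 / e n * M) := by gcongr
          _ = 4 * M * (2 * (|h x| * (e n)⁻¹)) := by rw [div_eq_mul_inv]; ring
          _ ≤ _ := by gcongr; linarith
      · rw [hgr0 n x hx]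
        rw [indicator_of_notMem hx, indicator_of_notMem hx]
        simp
    rw [← Real.norm_eq_abs]
    refine (norm_integral_le_of_norm_le hbi (Eventually.of_forall hpt)).trans ?_
    rw [integral_const_mul, integral_add (hi1.const_mul _) (hi2.const_mul _), integral_const_mul,
      integral_const_mul]
    have h5 : ∫ x in Ω, (T n).indicator (fun _ => (1 : ℝ)) x ≤ |C0| * (2 * e n) ^ 2 := by
      rw [integral_indicator (hTm n), setIntegral_const, smul_eq_mul, mul_one]
      refine ENNReal.toReal_le_of_le_ofReal (by positivity) (le_trans ?_ (hTv n))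
      exact Measure.restrict_apply_le _ _
    have h6 : δ * (e n)⁻¹ ^ 2 * ∫ x in Ω, (T n).indicator (fun _ => (1 : ℝ)) x ≤ 4 * |C0| * δ := by
      calc δ * (e n)⁻¹ ^ 2 * ∫ x in Ω, (T n).indicator (fun _ => (1 : ℝ)) x
          ≤ δ * (e n)⁻¹ ^ 2 * (|C0| * (2 * e n) ^ 2) := by gcongr
        _ = 4 * |C0| * δ := by field_simp; ring
    gcongr
  have herrlim : Tendsto (fun n => ∫ x in Ω, h x * ⟪gr (κ n) x, X x⟫) atTop (𝓝 0) := by
    have hd : ∀ n, 0 < Real.sqrt (b n) + e n := fun n => by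
      have := Real.sqrt_nonneg (b n); linarith [he0 n]
    have hle : ∀ n, ‖∫ x in Ω, h x * ⟪gr (κ n) x, X x⟫‖
        ≤ 4 * M * (Real.sqrt (b n) + 4 * |C0| * (Real.sqrt (b n) + e n)) := by
      intro n
      rw [Real.norm_eq_abs]
      refine (herr n _ (hd n)).trans ?_
      have h1 : (Real.sqrt (b n) + e n)⁻¹ * b n ≤ Real.sqrt (b n) := by
        rw [inv_mul_le_iff₀ (hd n)]
        nlinarith [Real.mul_self_sqrt (hb0 n), Real.sqrt_nonneg (b n), he0 n]
      gcongr
    refine squeeze_zero_norm hle ?_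
    have h1 : Tendsto (fun n => Real.sqrt (b n)) atTop (𝓝 0) := by
      have := (Real.continuous_sqrt.tendsto 0).comp hblim
      rwa [Real.sqrt_zero] at this
    have h2 := ((h1.add ((h1.add hlime).const_mul (4 * |C0|))).const_mul (4 * M))
    simpa using h2
  -- the equations
  have heq : ∀ n, (∫ x in Ω, κ n x * g x) + ∫ x in Ω, h x * ⟪gr (κ n) x, X x⟫
      = ∫ x, κ n x * (τ x * ⟪X x, ν x⟫) ∂σ := by
    intro n
    have hYs : ContDiff ℝ ∞ (fun x => κ n x • X x) := (hκs n).smul hX
    have hYc : HasCompactSupport (fun x => κ n x • X x) := smul_cs _ hXc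
    have hYZ : Disjoint (tsupport (fun x => κ n x • X x)) Z := by
      obtain ⟨U, hU, hZU, hU0⟩ := hκU n
      have h1 : tsupport (fun x => κ n x • X x) ⊆ Uᶜ := by
        refine closure_minimal (fun x hx hxU => hx ?_) hU.isClosed_compl
        show κ n x • X x = 0
        rw [hU0 x hxU, zero_smul]
      exact disjoint_left.2 fun x hx hxZ => h1 hx (hZU hxZ)
    have h1 := partA hΩ hΩb hσ hSc hint hNJ hs hYs hYc hYZ
    have hgκ : MemLp (fun x => ⟪gr (κ n) x, X x⟫) 2 (volume.restrict Ω) := by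
      refine MemLp.of_bound ?_ (8 / e n * M) (Eventually.of_forall fun x => ?_)
      · exact (gr_meas (κ n)).aestronglyMeasurable.inner hX.continuous.aestronglyMeasurable
      · exact (norm_inner_le_norm _ _).trans (mul_le_mul (hκg n x) (hM x) (norm_nonneg _)
          (div_nonneg (by norm_num) (he0 n).le))
    have hi1 : Integrable (fun x => κ n x * g x) (volume.restrict Ω) := by
      refine hgi.bdd_mul (c := 1) (hκs n).continuous.aestronglyMeasurable (Eventually.of_forall fun x => ?_)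
      rw [Real.norm_eq_abs, abs_of_nonneg (hκ01 n x).1]
      exact (hκ01 n x).2
    have hi2 : Integrable (fun x => h x * ⟪gr (κ n) x, X x⟫) (volume.restrict Ω) :=
      hs.u2.integrable_mul hgκ
    rw [← integral_add hi1 hi2]
    have e1 : ∀ x, κ n x * g x + h x * ⟪gr (κ n) x, X x⟫
        = h x * dv (fun x => κ n x • X x) x + ⟪gr h x, κ n x • X x⟫ := by
      intro x
      rw [dv_smul ((hκs n).differentiable (by simp)).differentiableAt (hX.differentiable (by simp)).differentiableAt,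
        inner_smul_right]
      simp only [g]
      ring
    simp only [e1]
    rw [h1]
    congr 1
    ext x
    rw [inner_smul_left]
    simp only [conj_trivial]
    ring
  have hlimA : Tendsto (fun n => ∫ x in Ω, κ n x * g x) atTop (𝓝 (∫ x in Ω, g x)) := by
    refine tendsto_integral_of_dominated_convergence (fun x => ‖g x‖) ?_ hgi.norm ?_ ?_
    · exact fun n => (hκs n).continuous.aestronglyMeasurable.mul hgi.1
    · refine fun n => Eventually.of_forall fun x => ?_
      rw [norm_mul, Real.norm_eq_abs (κ n x), abs_of_nonneg (hκ01 n x).1]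
      exact mul_le_of_le_one_left (norm_nonneg _) (hκ01 n x).2
    · have hZae : ∀ᵐ x ∂(volume : Measure E), x ∉ Z := by
        rw [ae_iff]; simpa only [not_not, ofPred_mem_eq] using hZ0
      filter_upwards [ae_restrict_of_ae hZae] with x hx
      refine (tendsto_congr' ?_).2 tendsto_const_nhds
      filter_upwards [hκlim x hx] with n hn
      rw [hn, one_mul]
  have hlimB : Tendsto (fun n => ∫ x, κ n x * (τ x * ⟪X x, ν x⟫) ∂σ) atTop
      (𝓝 (∫ x, τ x * ⟪X x, ν x⟫ ∂σ)) := by
    refine tendsto_integral_of_dominated_convergence (fun x => ‖τ x * ⟪X x, ν x⟫‖) ?_ hti.norm ?_ ?_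
    · exact fun n => (hκs n).continuous.aestronglyMeasurable.mul hti.1
    · refine fun n => Eventually.of_forall fun x => ?_
      rw [norm_mul, Real.norm_eq_abs (κ n x), abs_of_nonneg (hκ01 n x).1]
      exact mul_le_of_le_one_left (norm_nonneg _) (hκ01 n x).2
    · have hfr : ∀ᵐ x ∂σ, x ∈ frontier Ω := by
        rw [ae_iff]; exact hσ.supp
      filter_upwards [hfr] with x hx
      have hxZ : x ∉ Z := fun hh => by
        rw [hΩ.frontier_eq] at hx
        exact hx.2 (hC.sub (hZS hh))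
      refine (tendsto_congr' ?_).2 tendsto_const_nhds
      filter_upwards [hκlim x hxZ] with n hn
      rw [hn, one_mul]
  have h7 := hlimA.add herrlim
  rw [add_zero] at h7
  have h8 : Tendsto (fun n => ∫ x, κ n x * (τ x * ⟪X x, ν x⟫) ∂σ) atTop (𝓝 (∫ x in Ω, g x)) := by
    refine h7.congr fun n => ?_
    exact heq n
  exact tendsto_nhds_unique h8 hlimB

end Pool.Agent.H4.ICA
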