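import Mathlib
import Pool.Agent.H94.AC.Targets
import Pool.Agent.H4.ICA.RMC

/-!
# The set of points without jump is closed in the analytic part of the crack (MP_0ee698_an, module CLO)
-/

open MeasureTheory Set Filter Topology Metric
open scoped ENNReal NNReal ContDiff RealInnerProductSpace Manifold
open Pool.Agent.H94.IC Pool.Agent.H94.AC Pool.Agent.H89.IC

namespace Pool.Agent.H4.ICA

/-- Cauchy-Schwarz -/
theorem cs1 {K : Set E} (hK : IsCompact K) {f : E → ℝ} (hf : MemLp f 2 (volume.restrict K)) (h0 : ∀ x, 0 ≤ f x) :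
    ∫ x in K, f x ≤ Real.sqrt (volume.real K) * Real.sqrt (∫ x in K, f x ^ 2) := by
  have hfin : IsFiniteMeasure (volume.restrict K) := ⟨by
    rw [Measure.restrict_apply_univ]; exact hK.measure_lt_top⟩
  have h1 := integral_mul_le_Lp_mul_Lq_of_nonneg (μ := volume.restrict K) (f := fun _ => (1 : ℝ)) (g := f)
    Real.HolderConjugate.two_two (Eventually.of_forall fun _ => zero_le_one) (Eventually.of_forall h0)
    (by simpa using memLp_const (1 : ℝ)) (by simpa using hf)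
  simp only [one_mul, Real.rpow_two, integral_const, smul_eq_mul] at h1
  rw [Real.sqrt_eq_rpow, Real.sqrt_eq_rpow]
  simpa using h1

/-- linearity of the jump functional -/
theorem JX_lin {Ω S : Set E} {X : E → E} {φ ψ : E → ℝ} (a b : ℝ) (hΩ : IsOpen Ω) (hΩb : Bornology.IsBounded Ω)
    (hSc : IsClosed S) (hS0 : volume S = 0) (hX : ContDiff ℝ ∞ X) (hXc : HasCompactSupport X)
    (hφ : ContDiffOn ℝ ∞ φ (Ω \ S)) (hψ : ContDiffOn ℝ ∞ ψ (Ω \ S))
    (hφ2 : MemLp φ 2 (volume.restrict Ω)) (hψ2 : MemLp ψ 2 (volume.restrict Ω))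
    (hgφ : MemLp (gr φ) 2 (volume.restrict Ω)) (hgψ : MemLp (gr ψ) 2 (volume.restrict Ω)) :
    JX Ω X (fun x => a * φ x + b * ψ x) = a * JX Ω X φ + b * JX Ω X ψ := by
  have hOo : IsOpen (Ω \ S) := hΩ.sdiff hSc
  have hSae : ∀ᵐ x ∂(volume : Measure E), x ∉ S := by
    rw [ae_iff]; simpa only [not_not, ofPred_mem_eq] using hS0
  have h1 := A_int hΩb hφ2 hgφ hX hXc
  have h2 := A_int hΩb hψ2 hgψ hX hXc
  unfold JX
  rw [← integral_const_mul, ← integral_const_mul, ← integral_add (h1.const_mul a) (h2.const_mul b)]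
  refine integral_congr_ae ((ae_restrict_iff' hΩ.measurableSet).2 ?_)
  filter_upwards [hSae] with x hxS hxΩ
  have hφd : DifferentiableAt ℝ φ x := (hφ.contDiffAt (hOo.mem_nhds ⟨hxΩ, hxS⟩)).differentiableAt (by simp)
  have hψd : DifferentiableAt ℝ ψ x := (hψ.contDiffAt (hOo.mem_nhds ⟨hxΩ, hxS⟩)).differentiableAt (by simp)
  have h3 : HasFDerivAt (fun x => a * φ x + b * ψ x) (a • fderiv ℝ φ x + b • fderiv ℝ ψ x) x :=
    (hφd.hasFDerivAt.const_mul a).add (hψd.hasFDerivAt.const_mul b)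
  rw [inner_gr, inner_gr, inner_gr, h3.fderiv]
  simp only [add_apply, smul_apply, smul_eq_mul]
  ring

/-- gradients of test functions vanish off `K` -/
theorem TK_gr {Ω S K : Set E} {φ : E → ℝ} (hΩ : IsOpen Ω) (hK : IsCompact K) (h : TK Ω S K φ) {x : E}
    (hx : x ∈ Ω \ K) : gr φ x = 0 := by
  have hφe : φ =ᶠ[𝓝 x] fun _ => 0 := by
    filter_upwards [(hΩ.sdiff hK.isClosed).mem_nhds hx] with z hz
    exact h.out z hz
  have : fderiv ℝ φ x = 0 := by rw [hφe.fderiv_eq]; simp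
  simp only [gr, gradient, this, map_zero]

/-- the bound for the jump functional on test functions -/
theorem JX_bound {Ω S K : Set E} {X : E → E} {C : ℝ} (hΩ : IsOpen Ω) (hK : IsCompact K) (hKΩ : K ⊆ Ω)
    (hC : 0 ≤ C) (hP : ∀ φ, TK Ω S K φ → ∫ x in K, φ x ^ 2 ≤ C * ∫ x in K, ‖gr φ x‖ ^ 2)
    (hX : ContDiff ℝ ∞ X) (hXc : HasCompactSupport X) :
    ∃ C' : ℝ, ∀ φ, TK Ω S K φ → |JX Ω X φ| ≤ C' * Real.sqrt (∫ x in K, ‖gr φ x‖ ^ 2) := by
  obtain ⟨M1, hM1⟩ := dv_bdd hX hXc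
  obtain ⟨M2, hM2⟩ := hX.continuous.bounded_above_of_compact_support hXc
  have hM10 : 0 ≤ M1 := (norm_nonneg _).trans (hM1 0)
  have hM20 : 0 ≤ M2 := (norm_nonneg _).trans (hM2 0)
  have hfin : IsFiniteMeasure (volume.restrict K) := ⟨by
    rw [Measure.restrict_apply_univ]; exact hK.measure_lt_top⟩
  set V := Real.sqrt (volume.real K) with hV
  refine ⟨M1 * (V * Real.sqrt C) + M2 * V, fun φ hφ => ?_⟩
  have hsub : volume.restrict K ≤ volume.restrict Ω := Measure.restrict_mono hKΩ le_rfl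
  have hφ2 : MemLp φ 2 (volume.restrict K) := hφ.l2.mono_measure hsub
  have hg2 : MemLp (gr φ) 2 (volume.restrict K) := hφ.g2.mono_measure hsub
  have e1 : JX Ω X φ = ∫ x in K, (φ x * dv X x + ⟪gr φ x, X x⟫) := by
    unfold JX
    refine setIntegral_eq_of_subset_of_forall_sdiff_eq_zero hΩ.measurableSet hKΩ ?_
    intro x hx
    rw [hφ.out x hx, TK_gr hΩ hK hφ hx]
    simp
  have hi1 : Integrable (fun x => |φ x|) (volume.restrict K) := (hφ2.integrable (by norm_num)).norm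
  have hi2 : Integrable (fun x => ‖gr φ x‖) (volume.restrict K) := (hg2.integrable (by norm_num)).norm
  rw [e1, ← Real.norm_eq_abs]
  refine (norm_integral_le_of_norm_le (g := fun x => M1 * |φ x| + M2 * ‖gr φ x‖)
    ((hi1.const_mul M1).add (hi2.const_mul M2)) (Eventually.of_forall fun x => ?_)).trans ?_
  · refine (norm_add_le _ _).trans (add_le_add ?_ ?_)
    · rw [norm_mul, mul_comm, Real.norm_eq_abs (φ x)]
      exact mul_le_mul_of_nonneg_right (hM1 x) (abs_nonneg _)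
    · refine (norm_inner_le_norm _ _).trans ?_
      rw [mul_comm]
      exact mul_le_mul_of_nonneg_right (hM2 x) (norm_nonneg _)
  · rw [integral_add (hi1.const_mul M1) (hi2.const_mul M2), integral_const_mul, integral_const_mul]
    have h1 : ∫ x in K, |φ x| ≤ V * Real.sqrt (∫ x in K, φ x ^ 2) := by
      have := cs1 hK (f := fun x => |φ x|) hφ2.norm (fun x => abs_nonneg _)
      simpa only [sq_abs] using this
    have h2 : ∫ x in K, ‖gr φ x‖ ≤ V * Real.sqrt (∫ x in K, ‖gr φ x‖ ^ 2) :=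
      cs1 hK (f := fun x => ‖gr φ x‖) hg2.norm (fun x => norm_nonneg _)
    have h3 : Real.sqrt (∫ x in K, φ x ^ 2) ≤ Real.sqrt C * Real.sqrt (∫ x in K, ‖gr φ x‖ ^ 2) := by
      rw [← Real.sqrt_mul hC]
      exact Real.sqrt_le_sqrt (hP φ hφ)
    have hV0 : 0 ≤ V := Real.sqrt_nonneg _
    calc (M1 * ∫ x in K, |φ x|) + M2 * ∫ x in K, ‖gr φ x‖
        ≤ M1 * (V * (Real.sqrt C * Real.sqrt (∫ x in K, ‖gr φ x‖ ^ 2)))
          + M2 * (V * Real.sqrt (∫ x in K, ‖gr φ x‖ ^ 2)) := by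
          refine add_le_add (mul_le_mul_of_nonneg_left (h1.trans ?_) hM10) (mul_le_mul_of_nonneg_left h2 hM20)
          exact mul_le_mul_of_nonneg_left h3 hV0
      _ = _ := by ring

theorem clo (hDFO : T_DFO) (hDFA : T_DFA) (hPBE : T_PBE) (hPOI : T_POI) (hATR : T_ATR) (hNJS : T_NJS)
    (hSNJ : T_SNJ) : T_CLO := by
  intro Ω S h p hΩ hΩb hSc hS0 hW hpS hpΩ hA hcl
  obtain ⟨Ψ1, hp1, hs1, hss1, hfl1⟩ := hA
  have hΨ1p2 : (Ψ1 p) 2 = 0 := (hfl1 p hp1).1 hpS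
  set Ψ : OpenPartialHomeomorph E E := Ψ1.transHomeomorph (Homeomorph.addRight (-(Ψ1 p))) with hΨ
  have hsrc : Ψ.source = Ψ1.source := rfl
  have hcoe : ∀ x, Ψ x = Ψ1 x + (-(Ψ1 p)) := fun x => rfl
  have htgt : ∀ y, y ∈ Ψ.target → y + Ψ1 p ∈ Ψ1.target := by
    intro y hy
    have h1 : Ψ.symm y ∈ Ψ.source := Ψ.map_target hy
    have h2 : Ψ (Ψ.symm y) = y := Ψ.right_inv hy
    rw [hcoe] at h2
    have h3 : y + Ψ1 p = Ψ1 (Ψ.symm y) := (add_neg_eq_iff_eq_add.1 h2).symm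
    rw [h3]
    exact Ψ1.map_source h1
  have hsymm : ∀ y ∈ Ψ.target, Ψ.symm y = Ψ1.symm (y + Ψ1 p) := by
    intro y hy
    have h1 : Ψ.symm y ∈ Ψ.source := Ψ.map_target hy
    have h2 : Ψ (Ψ.symm y) = y := Ψ.right_inv hy
    rw [hcoe] at h2
    have h3 : y + Ψ1 p = Ψ1 (Ψ.symm y) := (add_neg_eq_iff_eq_add.1 h2).symm
    rw [h3, Ψ1.left_inv h1]
  have hsω : ContDiffOn ℝ ω Ψ Ψ.source := hs1.add contDiffOn_const
  have hssω : ContDiffOn ℝ ω Ψ.symm Ψ.target := by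
    have h1 : ContDiffOn ℝ ω (fun y => Ψ1.symm (y + Ψ1 p)) Ψ.target :=
      hss1.comp (contDiff_id.add contDiff_const).contDiffOn fun y hy => htgt y hy
    exact h1.congr hsymm
  have hs : ContDiffOn ℝ ∞ Ψ Ψ.source := hsω.of_le le_top
  have hss : ContDiffOn ℝ ∞ Ψ.symm Ψ.target := hssω.of_le le_top
  have hfl : ∀ x ∈ Ψ.source, x ∈ S ↔ (Ψ x) 2 = 0 := by
    intro x hx
    rw [hfl1 x hx, hcoe]
    simp [hΨ1p2]
  have hpsrc : p ∈ Ψ.source := hp1
  have hp0 : Ψ p = 0 := by rw [hcoe]; simp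
  have h0tgt : (0 : E) ∈ Ψ.target := by rw [← hp0]; exact Ψ.map_source hpsrc
  have hsymm0 : Ψ.symm 0 = p := by rw [← hp0]; exact Ψ.left_inv hpsrc
  clear_value Ψ
  obtain ⟨R0, hR0, hR0t, hDF⟩ := hDFA Ψ h0tgt hsω hssω
  -- choice of R
  have hopen : IsOpen (Ψ.target ∩ Ψ.symm ⁻¹' Ω) := Ψ.isOpen_inter_preimage_symm hΩ
  obtain ⟨ε, hε, hεb⟩ := Metric.isOpen_iff.1 hopen 0 ⟨h0tgt, by
    show Ψ.symm 0 ∈ Ω
    rw [hsymm0]; exact hpΩ⟩
  set R : ℝ := min R0 (ε / 3) with hR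
  have hRpos : 0 < R := lt_min hR0 (by positivity)
  have hRR0 : R ≤ R0 := min_le_left _ _
  have hRε : R ≤ ε / 3 := min_le_right _ _
  have h2R : closedBall (0 : E) (2 * R) ⊆ Ψ.target ∩ Ψ.symm ⁻¹' Ω := fun y hy => by
    refine hεb ?_
    rw [mem_closedBall] at hy
    rw [mem_ball]
    linarith
  have h2Rt : closedBall (0 : E) (2 * R) ⊆ Ψ.target := fun y hy => (h2R hy).1
  have h2RΩ : Ψ.symm '' closedBall 0 (2 * R) ⊆ Ω := by
    rintro x ⟨y, hy, rfl⟩
    exact (h2R hy).2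
  have hRsub : closedBall (0 : E) R ⊆ closedBall 0 (2 * R) := closedBall_subset_closedBall (by linarith)
  have hKc : IsCompact (Ψ.symm '' closedBall 0 R) :=
    (isCompact_closedBall _ _).image_of_continuousOn (Ψ.symm.continuousOn.mono (hRsub.trans h2Rt))
  have hKcs : CompactSpace (Ψ.symm '' closedBall 0 R) := isCompact_iff_compactSpace.1 hKc
  have hKΩ : Ψ.symm '' closedBall 0 R ⊆ Ω := (image_mono hRsub).trans h2RΩ
  -- cutoff
  let bmp : ContDiffBump (0 : E) := ⟨R / 2, R, by positivity, by linarith⟩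
  set χ : E → ℝ := fun y => bmp y with hχd
  have hχ : Chi χ R := by
    refine ⟨bmp.contDiff, fun y => ⟨bmp.nonneg, bmp.le_one⟩, fun y hy => ?_⟩
    exact bmp.zero_of_le_dist (by simpa using hy)
  have hχ1 : ∀ y, ‖y‖ ≤ R / 2 → χ y = 1 := fun y hy => bmp.one_of_mem_closedBall (by simpa using hy)
  clear_value χ
  obtain ⟨ρ1, hρ1, hDO⟩ := hDFO Ψ R χ hRpos h2Rt hs hss hχ
  obtain ⟨ρ2, Γ, hρ2, hΓa, hΓ1, hΓ⟩ := hDF R χ hRpos hRR0 hχ
  obtain ⟨CP, hCP0, hCP⟩ := hPOI Ψ R Ω S hRpos h2Rt hs hss hΩ hSc hS0 h2RΩ hfl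
  set ρ : ℝ := min ρ1 ρ2 with hρ
  have hρpos : 0 < ρ := lt_min hρ1 hρ2
  -- choice of q
  have hVo : IsOpen (Ψ.source ∩ Ψ ⁻¹' ball 0 (ρ / 2)) := Ψ.isOpen_inter_preimage isOpen_ball
  obtain ⟨q, hqV, hqS, hqNJ⟩ := mem_closure_iff.1 hcl _ hVo ⟨hpsrc, by
    show Ψ p ∈ ball 0 (ρ / 2)
    rw [hp0]; exact mem_ball_self (by positivity)⟩
  set l1 : E := Ψ q with hl1
  have hqs : q ∈ Ψ.source := hqV.1
  have hl1n : ‖l1‖ < ρ / 2 := by have := hqV.2; rwa [mem_preimage, mem_ball_zero_iff] at this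
  have hl12 : l1 2 = 0 := (hfl q hqs).1 hqS
  set J : Set ℝ := Ioo (-1) 2 with hJ
  have h0J : (0 : ℝ) ∈ J := by constructor <;> norm_num
  have h1J : (1 : ℝ) ∈ J := by constructor <;> norm_num
  have hlt : ∀ t ∈ J, t • l1 ∈ ball (0 : E) ρ := by
    intro t ht
    rw [mem_ball_zero_iff, norm_smul, Real.norm_eq_abs]
    have h1 : |t| ≤ 2 := abs_le.2 ⟨by linarith [ht.1], ht.2.le⟩
    nlinarith [norm_nonneg l1, abs_nonneg t]
  have hlt1 : ∀ t ∈ J, t • l1 ∈ ball (0 : E) ρ1 := fun t ht => ball_subset_ball (min_le_left _ _) (hlt t ht)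
  have hlt2 : ∀ t ∈ J, t • l1 ∈ ball (0 : E) ρ2 := fun t ht => ball_subset_ball (min_le_right _ _) (hlt t ht)
  have htl2 : ∀ t : ℝ, (t • l1) 2 = 0 := fun t => by simp [hl12]
  set T : ℝ → E → E := fun t => defo Ψ χ (t • l1) with hT
  set f : ℝ → E → ℝ := fun t x => h (T t x) with hf
  -- properties of T
  have hTout : ∀ t, ∀ x ∉ (Ψ.symm '' closedBall 0 R), T t x = x := by
    intro t x hx
    simp only [T, defo]
    split_ifs with hxs
    · have h1 : χ (Ψ x) = 0 := by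
        refine hχ.out _ ?_
        by_contra hh
        refine hx ⟨Ψ x, ?_, Ψ.left_inv hxs⟩
        rw [mem_closedBall_zero_iff]
        exact (not_le.1 hh).le
      rw [h1, zero_smul, add_zero]
      exact Ψ.left_inv hxs
    · rfl
  have hT0 : ∀ x, T 0 x = x := by
    intro x
    simp only [T, defo]
    split_ifs with hxs
    · rw [zero_smul, smul_zero, add_zero]
      exact Ψ.left_inv hxs
    · rfl
  have hf0 : f 0 = h := by
    ext x
    simp only [f, hT0 x]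
  have hTS : ∀ t ∈ J, ∀ x, T t x ∈ S ↔ x ∈ S := by
    intro t ht x
    by_cases hxs : x ∈ Ψ.source
    · obtain ⟨h1, h2⟩ := (hDO _ (hlt1 t ht) (htl2 t)).2.2 x hxs
      rw [hfl _ h1, h2, hfl x hxs]
      have h3 : (Ψ x + χ (Ψ x) • t • l1) 2 = (Ψ x) 2 := by simp [hl12]
      rw [h3]
    · have : T t x = x := by simp only [T, defo, if_neg hxs]
      rw [this]
  have hP : ∀ t ∈ J, TK Ω S (Ψ.symm '' closedBall 0 R) (fun x => f t x - h x) ∧ MemLp (gr (f t)) 2 (volume.restrict (Ψ.symm '' closedBall 0 R)) ∧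
      ContDiffOn ℝ ∞ (f t) (Ω \ S) ∧ ∀ (φ : E → ℝ) (M : E → (E →L[ℝ] E)), TK Ω S (Ψ.symm '' closedBall 0 R) φ →
      (∀ x ∈ (Ψ.symm '' closedBall 0 R), ∀ a b : E, ⟪M x (ContinuousLinearMap.adjoint (fderiv ℝ (T t) x) a),
        ContinuousLinearMap.adjoint (fderiv ℝ (T t) x) b⟫ = |(fderiv ℝ (T t) x).det| * ⟪a, b⟫) →
      ∫ x in (Ψ.symm '' closedBall 0 R), ⟪M x (gr (f t) x), gr φ x⟫ = 0 := by
    intro t ht
    obtain ⟨hTs, ⟨T', hT's, hTT'⟩, -⟩ := hDO _ (hlt1 t ht) (htl2 t)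
    exact hPBE Ω S (Ψ.symm '' closedBall 0 R) h (T t) T' hΩ hΩb hSc hS0 hKc hKΩ hW hTs hT's hTT' (hTout t) (hTS t ht)
  -- the harmonic extension at q
  obtain ⟨e, he, heΩ, U, hU, hUh⟩ := hNJS Ω S h q hΩ hΩb hSc hS0 hW hqNJ
  -- choice of s and δ
  have hΨsymmq : Ψ.symm l1 = q := Ψ.left_inv hqs
  have hl1t : l1 ∈ Ψ.target := Ψ.map_source hqs
  have hcont : ContinuousAt (fun z : ℝ × E => Ψ.symm (Ψ z.2 + z.1 • l1)) (1, p) := by
    have h1 : ContinuousAt (fun z : ℝ × E => Ψ z.2 + z.1 • l1) (1, p) := by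
      refine ContinuousAt.add ?_ (by fun_prop)
      exact ContinuousAt.comp (f := fun z : ℝ × E => z.2) (x := (1, p))
        (hs.continuousOn.continuousAt (Ψ.open_source.mem_nhds hpsrc)) continuousAt_snd
    refine ContinuousAt.comp (g := Ψ.symm) ?_ h1
    show ContinuousAt Ψ.symm (Ψ p + (1 : ℝ) • l1)
    rw [hp0, zero_add, one_smul]
    exact Ψ.continuousAt_symm hl1t
  have hev1 : ∀ᶠ z : ℝ × E in 𝓝 (1, p), Ψ.symm (Ψ z.2 + z.1 • l1) ∈ ball q e := by
    refine hcont.eventually_mem ?_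
    show ball q e ∈ 𝓝 (Ψ.symm (Ψ p + (1 : ℝ) • l1))
    rw [hp0, zero_add, one_smul, hΨsymmq]
    exact ball_mem_nhds q he
  have hev2 : ∀ᶠ x in 𝓝 p, x ∈ Ψ.source ∧ ‖Ψ x‖ < R / 2 ∧ x ∈ Ω := by
    have h1 : ContinuousAt (fun x => ‖Ψ x‖) p :=
      (hs.continuousOn.continuousAt (Ψ.open_source.mem_nhds hpsrc)).norm
    have h2 : (fun x => ‖Ψ x‖) p < R / 2 := by simp only [hp0, norm_zero]; positivity
    filter_upwards [Ψ.open_source.mem_nhds hpsrc, h1.eventually_lt_const h2, hΩ.mem_nhds hpΩ] with x a1 a2 a3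
    exact ⟨a1, a2, a3⟩
  have hev3 : ∀ᶠ t in 𝓝 (1 : ℝ), t ∈ J := isOpen_Ioo.mem_nhds h1J
  obtain ⟨δ, hδ, hball⟩ := Metric.eventually_nhds_iff.1 (hev1.and (hev3.prod_nhds hev2))
  refine ⟨δ, hδ, ?_, ?_⟩
  · intro x hx
    have : dist ((1 : ℝ), x) (1, p) < δ := by
      rw [Prod.dist_eq, dist_self]
      exact max_lt hδ hx
    exact (hball this).2.2.2.2
  intro X hX hXc hXs
  have hδΩ : ball p δ ⊆ Ω := by
    intro x hx
    have : dist ((1 : ℝ), x) (1, p) < δ := by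
      rw [Prod.dist_eq, dist_self]
      exact max_lt hδ hx
    exact (hball this).2.2.2.2
  obtain ⟨C', hC'⟩ := JX_bound (S := S) hΩ hKc hKΩ hCP0 hCP hX hXc
  -- analyticity
  have hana : AnalyticOnNhd ℝ (fun t => JX Ω X (fun x => f t x - f 0 x)) J := by
    refine hATR Ω S (Ψ.symm '' closedBall 0 R) J (fun t => Γ (t • l1)) f (JX Ω X) C' hΩ hSc hS0 hKΩ isOpen_Ioo h0J ?_ ?_ ?_ hC' ?_ ?_ ?_ ?_
    · intro t ht
      have h1 : AnalyticAt ℝ (fun t : ℝ => t • l1) t := analyticAt_id.smul analyticAt_const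
      exact AnalyticAt.comp (g := Γ) (hΓa _ (hlt2 t ht)) h1
    · exact fun t ht => hΓ1 _ (hlt2 t ht)
    · intro φ ψ a b hφ hψ
      exact JX_lin a b hΩ hΩb hSc hS0 hX hXc hφ.sm hψ.sm hφ.l2 hψ.l2 hφ.g2 hψ.g2
    · exact fun t ht => (hP t ht).2.2.1
    · exact fun t ht => (hP t ht).2.1
    · intro t ht
      rw [hf0]
      exact (hP t ht).1
    · intro t ht φ hφ
      classical
      set M : E → (E →L[ℝ] E) := fun x => if hx : x ∈ (Ψ.symm '' closedBall 0 R) then Γ (t • l1) ⟨x, hx⟩ else 0 with hM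
      have h1 := (hP t ht).2.2.2 φ M hφ (fun x hx a b => by
        simp only [M, dif_pos hx]
        exact hΓ _ (hlt2 t ht) ⟨x, hx⟩ a b)
      rw [← integral_subtype_comap hKc.measurableSet] at h1
      rw [← h1]
      unfold mu
      congr 1
      ext x
      simp only [M, dif_pos x.2]
  -- values near t = 1
  have hnear : (fun t => JX Ω X (fun x => f t x - f 0 x)) =ᶠ[𝓝 1] fun _ => - JX Ω X h := by
    rw [Filter.EventuallyEq, Metric.eventually_nhds_iff]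
    refine ⟨δ, hδ, fun t ht => ?_⟩
    have hd : ∀ x ∈ ball p δ, dist (t, x) (1, p) < δ := fun x hx => by
      rw [Prod.dist_eq]
      exact max_lt ht hx
    have htJ : t ∈ J := (hball (hd p (mem_ball_self hδ))).2.1
    have hTeq : ∀ x ∈ ball p δ, T t x ∈ ball q e := by
      intro x hx
      obtain ⟨a1, -, a2, a3, -⟩ := hball (hd x hx)
      have : T t x = Ψ.symm (Ψ x + t • l1) := by
        simp only [T, defo, if_pos a2]
        rw [hχ1 _ a3.le, one_smul]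
      rw [this]
      exact a1
    have hTs := (hDO _ (hlt1 t htJ) (htl2 t)).1
    have hJ0 : JX Ω X (f t) = 0 := by
      refine hSNJ Ω S (f t) (fun x => U (T t x)) p δ X hΩ hSc hS0 hδΩ ?_ ?_ hX hXc hXs
      · exact hU.1.comp hTs.contDiffOn hTeq
      · intro x hx hxS
        exact hUh _ (hTeq x hx) (fun hh => hxS ((hTS t htJ x).1 hh))
    obtain ⟨hTK, -, hfs, -⟩ := hP t htJ
    have hlin := JX_lin (X := X) (φ := fun x => f t x - h x) (ψ := h) 1 1 hΩ hΩb hSc hS0 hX hXc hTK.sm hW.harm.1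
      hTK.l2 hW.l2 hTK.g2 hW.g2
    have e1 : (fun x => 1 * (f t x - h x) + 1 * h x) = f t := by
      ext x; ring
    rw [e1, hJ0, one_mul, one_mul] at hlin
    rw [hf0]
    linarith
  have hEq := hana.eqOn_of_preconnected_of_eventuallyEq analyticOnNhd_const isPreconnected_Ioo h1J hnear
  have h3 := hEq h0J
  simp only [sub_self] at h3
  have h4 : JX Ω X (fun _ => 0) = 0 := by
    unfold JX
    have : ∀ x : E, gr (fun _ : E => (0 : ℝ)) x = 0 := by
      intro x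
      have : fderiv ℝ (fun _ : E => (0 : ℝ)) x = 0 := by simp
      simp only [gr, gradient, this, map_zero]
    simp [this]
  rw [h4] at h3
  linarith

end Pool.Agent.H4.ICA
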