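import Mathlib
import Pool.Agent.H94.AC.Targets
import Pool.Agent.H4.ICA.FML

/-!
# No flux out of flux free sets, cracks of any genus (MP_0ee698_an, module FMC)
-/

open MeasureTheory Set Filter Topology Metric
open scoped ENNReal NNReal ContDiff RealInnerProductSpace Manifold
open Pool.Agent.H94.IC Pool.Agent.H94.AC Pool.Agent.H89.IC

namespace Pool.Agent.H4.ICA

/-- the pairing with a cutoff which vanishes near the edge -/
theorem piece0 (hFML : T_FML) {Ω S D K Z : Set E} {h κ φ : E → ℝ} {K1 : ℝ≥0} {M η0 : ℝ} (hΩ : IsOpen Ω)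
    (hΩb : Bornology.IsBounded Ω) (hC : IsCrack Ω S)
    (hS0 : volume S = 0) (hW : WN Ω S h) (hD : IsOpen D) (hFF : FF D (gr h) (Ω \ S))
    (hZ : edgePts S ⊆ Z)
    (hφ : ContDiffOn ℝ ∞ φ (Ω \ S)) (hM : ∀ x, |φ x| ≤ M) (hgφ : MemLp (gr φ) 2 (volume.restrict Ω))
    (hK : IsCompact K) (hKΩ : K ⊆ Ω) (hφ0 : ∀ x ∈ Ω \ K, φ x = 0)
    (hκ : LipschitzWith K1 κ) (hκ01 : ∀ x, 0 ≤ κ x ∧ κ x ≤ 1) (hη0 : 0 < η0)
    (hκZ : ∀ x, infDist x Z < η0 → κ x = 0) :
    ∫ x in D ∩ Ω, (κ x * ⟪gr h x, gr φ x⟫ + φ x * ⟪gr h x, gr κ x⟫) = 0 := by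
  have hSc : IsClosed S := hC.cpt.isClosed
  obtain ⟨L, hLc, hKL, hLΩ⟩ := exists_compact_between hK hΩ hKΩ
  have hcl : IsClosed {x : E | η0 / 2 ≤ infDist x Z} := isClosed_le continuous_const (continuous_infDist_pt _)
  have hK2c : IsCompact (L ∩ {x | η0 / 2 ≤ infDist x Z}) := hLc.inter_right hcl
  set K2 : Set E := L ∩ {x | η0 / 2 ≤ infDist x Z} with hK2
  have hex : ∀ p : K2, ∃ r > 0, ball (p : E) r ⊆ Ω ∧ ∀ κ φ : E → ℝ, (∃ C : ℝ≥0, LipschitzWith C κ) →
      HasCompactSupport κ → tsupport κ ⊆ ball (p : E) r → ContDiffOn ℝ ∞ φ (Ω \ S) →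
      (∃ M : ℝ, ∀ x, |φ x| ≤ M) → MemLp (gr φ) 2 (volume.restrict Ω) →
      ∫ x in D ∩ Ω, (κ x * ⟪gr h x, gr φ x⟫ + φ x * ⟪gr h x, gr κ x⟫) = 0 := by
    intro p
    refine hFML Ω S h D p hΩ hΩb hC hW hD hFF (hLΩ p.2.1) fun hpe => ?_
    have h1 : η0 / 2 ≤ infDist (p : E) Z := p.2.2
    rw [infDist_zero_of_mem (hZ hpe)] at h1
    linarith
  choose r hr hrΩ hr0 using hex
  obtain ⟨t, ht⟩ := hK2c.elim_finite_subcover (fun x : K2 => ball (x : E) (r x))
    (fun x => isOpen_ball) (fun x hx => mem_iUnion.2 ⟨⟨x, hx⟩, mem_ball_self (hr ⟨x, hx⟩)⟩)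
  obtain ⟨f, hf⟩ := SmoothPartitionOfUnity.exists_isSubordinate 𝓘(ℝ, E) hK2c.isClosed
    (fun i : t => ball ((i : K2) : E) (r (i : K2))) (fun i => isOpen_ball)
    (fun x hx => by
      obtain ⟨i, hi, hxi⟩ := mem_iUnion₂.1 (ht hx)
      exact mem_iUnion.2 ⟨⟨i, hi⟩, hxi⟩)
  have hfs : ∀ i : t, tsupport (f i) ⊆ ball ((i : K2) : E) (r (i : K2)) := fun i => hf i
  have hfc : ∀ i : t, HasCompactSupport (f i) := fun i =>
    (isCompact_closedBall _ _).of_isClosed_subset (isClosed_tsupport _) ((hfs i).trans ball_subset_closedBall)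
  have hfsm : ∀ i : t, ContDiff ℝ ∞ (f i) := fun i => (f i).contMDiff.contDiff
  have hgL : ∀ i : t, ∃ C : ℝ≥0, LipschitzWith C (fun x => f i x * κ x) := by
    intro i
    obtain ⟨C, hC⟩ := ContDiff.lipschitzWith_of_hasCompactSupport (hfc i) (hfsm i) (by simp)
    refine lip_mul (M1 := 1) (M2 := 1) hC hκ (fun x => ?_) (fun x => ?_)
    · rw [abs_of_nonneg (f.nonneg i x)]
      exact f.le_one i x
    · rw [abs_of_nonneg (hκ01 x).1]
      exact (hκ01 x).2
  have hgc : ∀ i : t, HasCompactSupport (fun x => f i x * κ x) := fun i => (hfc i).mul_right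
  have hgs : ∀ i : t, tsupport (fun x => f i x * κ x) ⊆ tsupport (f i) := fun i =>
    tsupport_mul_subset_left
  have hz : ∀ i : t, ∫ x in D ∩ Ω, ((f i x * κ x) * ⟪gr h x, gr φ x⟫
      + φ x * ⟪gr h x, gr (fun x => f i x * κ x) x⟫) = 0 := fun i =>
    hr0 i _ _ (hgL i) (hgc i) ((hgs i).trans (hfs i)) hφ ⟨M, hM⟩ hgφ
  have hsub : volume.restrict (D ∩ Ω) ≤ volume.restrict Ω := Measure.restrict_mono inter_subset_right le_rfl
  have hi : ∀ i : t, Integrable (fun x => (f i x * κ x) * ⟪gr h x, gr φ x⟫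
      + φ x * ⟪gr h x, gr (fun x => f i x * κ x) x⟫) (volume.restrict (D ∩ Ω)) := by
    intro i
    obtain ⟨C, hC⟩ := hgL i
    exact (pair_int hΩ hΩb hSc hS0 hW hC (hgc i) hφ hM hgφ).mono_measure hsub
  have hsum : ∫ x in D ∩ Ω, ∑ i : t, ((f i x * κ x) * ⟪gr h x, gr φ x⟫
      + φ x * ⟪gr h x, gr (fun x => f i x * κ x) x⟫) = 0 := by
    rw [integral_finsetSum _ (fun i _ => hi i)]
    exact Finset.sum_eq_zero fun i _ => hz i
  rw [← hsum]
  have hDΩm : MeasurableSet (D ∩ Ω) := hD.measurableSet.inter hΩ.measurableSet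
  refine integral_congr_ae ((ae_restrict_iff' hDΩm).2 ?_)
  filter_upwards [hκ.ae_differentiableAt (μ := (volume : Measure E))] with x hκd hxD
  by_cases hxK : x ∈ K
  · have hloc : (fun z => ∑ i : t, f i z * κ z) =ᶠ[𝓝 x] κ := by
      rcases lt_or_ge (η0 / 2) (infDist x Z) with hlt | hge
      · have h1 : {z : E | η0 / 2 < infDist z Z} ∈ 𝓝 x :=
          (isOpen_lt continuous_const (continuous_infDist_pt _)).mem_nhds hlt
        have h2 : interior L ∈ 𝓝 x := isOpen_interior.mem_nhds (hKL hxK)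
        filter_upwards [h1, h2] with z hz1 hz2
        have hz2' : z ∈ K2 := ⟨interior_subset hz2, le_of_lt hz1⟩
        have := f.sum_eq_one hz2'
        rw [finsum_eq_sum_of_fintype] at this
        rw [← Finset.sum_mul, this, one_mul]
      · have h1 : {z : E | infDist z Z < η0} ∈ 𝓝 x :=
          (isOpen_lt (continuous_infDist_pt _) continuous_const).mem_nhds (by
            show infDist x Z < η0
            linarith)
        filter_upwards [h1] with z hz1
        rw [hκZ z hz1]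
        simp
    have hfd : fderiv ℝ κ x = ∑ i : t, fderiv ℝ (fun z => f i z * κ z) x := by
      have h2 : HasFDerivAt (fun z => ∑ i : t, f i z * κ z) (∑ i : t, fderiv ℝ (fun z => f i z * κ z) x) x := by
        refine HasFDerivAt.fun_sum fun i _ => ?_
        exact ((((hfsm i).differentiable (by simp)).differentiableAt).mul hκd).hasFDerivAt
      rw [← hloc.fderiv_eq]
      exact h2.fderiv
    have hv : κ x = ∑ i : t, f i x * κ x := hloc.eq_of_nhds.symm
    rw [Finset.sum_add_distrib, ← Finset.sum_mul, ← Finset.mul_sum, ← hv]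
    congr 2
    rw [inner_gr', hfd]
    simp only [FunLike.coe_sum, Finset.sum_apply, inner_gr']
  · have hφx : φ x = 0 := hφ0 x ⟨hxD.2, hxK⟩
    have hφe : φ =ᶠ[𝓝 x] fun _ => 0 := by
      filter_upwards [(hΩ.sdiff hK.isClosed).mem_nhds ⟨hxD.2, hxK⟩] with z hz
      exact hφ0 z hz
    have hgr0 : gr φ x = 0 := by
      have : fderiv ℝ φ x = 0 := by rw [hφe.fderiv_eq]; simp
      simp only [gr, gradient, this, map_zero]
    rw [hφx, hgr0]
    simp

theorem fmc (hFML : T_FML) (hEDC : T_EDC) (hTBC : T_TBC) (hEDG : T_EDG) : T_FMC := by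
  intro Ω S h D hΩ hΩb hC hW hD hFF φ K hφ hMex hgφ hK hKΩ hφ0
  obtain ⟨M, hM⟩ := hMex
  obtain ⟨hZc, hZn, hZS, hint, hS0⟩ := hEDC Ω S hC
  obtain ⟨C, hCb⟩ := hTBC Ω S hC
  have hSc : IsClosed S := hC.cpt.isClosed
  have hOo : IsOpen (Ω \ S) := hΩ.sdiff hSc
  have hM0 : 0 ≤ M := (abs_nonneg _).trans (hM 0)
  set Z : Set E := edgePts S with hZ
  have hA : Integrable (fun x => ‖gr h x‖ ^ 2) (volume.restrict Ω) :=
    (memLp_two_iff_integrable_sq_norm hW.g2.1).1 hW.g2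
  have hG : Integrable (fun x => ⟪gr h x, gr φ x⟫) (volume.restrict Ω) := inner_int hW.g2 hgφ
  have hsub : volume.restrict (D ∩ Ω) ≤ volume.restrict Ω := Measure.restrict_mono inter_subset_right le_rfl
  have hG' := hG.mono_measure hsub
  have hSae : ∀ᵐ x ∂(volume : Measure E), x ∉ S := by
    rw [ae_iff]; simpa only [not_not, ofPred_mem_eq] using hS0
  have hφm : AEStronglyMeasurable φ (volume.restrict Ω) := by
    have hres : volume.restrict Ω = volume.restrict (Ω \ S) := by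
      refine Measure.restrict_congr_set ?_
      have : (Ω \ S : Set E) =ᵐ[volume] Ω := sdiff_null_ae_eq_self hS0
      exact this.symm
    rw [hres]
    exact hφ.continuousOn.aestronglyMeasurable hOo.measurableSet
  set e : ℕ → ℝ := fun n => 1 / ((n : ℝ) + 1) with he
  have he0 : ∀ n, 0 < e n := fun n => Nat.one_div_pos_of_nat
  choose κ hκL hκ01 hκZ hκ1 hκi hκe using fun n => hEDG Z C hZc hZn hCb (e n) (he0 n)
  have hb : ∀ n, |∫ x in D ∩ Ω, κ n x * ⟪gr h x, gr φ x⟫|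
      ≤ M * (Real.sqrt (e n) * ((∫ x in Ω, ‖gr h x‖ ^ 2) + 1) / 2) := by
    intro n
    obtain ⟨K1, hK1⟩ := hκL n
    obtain ⟨η0, hη0, hκη⟩ := hκZ n
    have hz := piece0 hFML hΩ hΩb hC hS0 hW hD hFF subset_rfl hφ hM hgφ hK hKΩ hφ0 hK1 (hκ01 n) hη0 hκη
    set ε := e n with hε
    have hε0 : 0 < ε := he0 n
    have hse : 0 < Real.sqrt ε := Real.sqrt_pos.2 hε0
    set bd : E → ℝ := fun x => M * ((Real.sqrt ε * ‖gr h x‖ ^ 2 + (Real.sqrt ε)⁻¹ * ‖gr (κ n) x‖ ^ 2) / 2) with hbd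
    have hbi : Integrable bd (volume.restrict (D ∩ Ω)) :=
      ((((hA.mono_measure hsub).const_mul _).add ((hκi n).integrableOn.const_mul _)).div_const 2).const_mul M
    have hpt : ∀ x, |φ x * ⟪gr h x, gr (κ n) x⟫| ≤ bd x := by
      intro x
      rw [abs_mul]
      have h2 := norm_inner_le_norm (𝕜 := ℝ) (gr h x) (gr (κ n) x)
      rw [Real.norm_eq_abs] at h2
      have h3 : (Real.sqrt ε)⁻¹ * (Real.sqrt ε * ‖gr h x‖ - ‖gr (κ n) x‖) ^ 2
          = Real.sqrt ε * ‖gr h x‖ ^ 2 + (Real.sqrt ε)⁻¹ * ‖gr (κ n) x‖ ^ 2 - 2 * (‖gr h x‖ * ‖gr (κ n) x‖) := by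
        field_simp
        ring
      have h4 : 0 ≤ (Real.sqrt ε)⁻¹ * (Real.sqrt ε * ‖gr h x‖ - ‖gr (κ n) x‖) ^ 2 := by positivity
      exact mul_le_mul (hM x) (by linarith) (abs_nonneg _) hM0
    have hi1 : Integrable (fun x => κ n x * ⟪gr h x, gr φ x⟫) (volume.restrict (D ∩ Ω)) := by
      refine hG'.bdd_mul (c := 1) hK1.continuous.aestronglyMeasurable (Eventually.of_forall fun x => ?_)
      rw [Real.norm_eq_abs, abs_of_nonneg (hκ01 n x).1]
      exact (hκ01 n x).2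
    have hi2 : Integrable (fun x => φ x * ⟪gr h x, gr (κ n) x⟫) (volume.restrict (D ∩ Ω)) := by
      refine hbi.mono' ?_ (Eventually.of_forall fun x => by rw [Real.norm_eq_abs]; exact hpt x)
      exact (hφm.mono_measure hsub).mul
        ((gr_meas h).aestronglyMeasurable.inner (gr_meas (κ n)).aestronglyMeasurable)
    rw [integral_add hi1 hi2] at hz
    have hz2 : ∫ x in D ∩ Ω, κ n x * ⟪gr h x, gr φ x⟫ = - ∫ x in D ∩ Ω, φ x * ⟪gr h x, gr (κ n) x⟫ := by
      linarith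
    rw [hz2, abs_neg]
    calc |∫ x in D ∩ Ω, φ x * ⟪gr h x, gr (κ n) x⟫| ≤ ∫ x in D ∩ Ω, bd x := by
          rw [← Real.norm_eq_abs]
          exact norm_integral_le_of_norm_le hbi (Eventually.of_forall fun x => by
            rw [Real.norm_eq_abs]; exact hpt x)
      _ ≤ _ := by
          rw [integral_const_mul, integral_div, integral_add ((hA.mono_measure hsub).const_mul _)
            ((hκi n).integrableOn.const_mul _), integral_const_mul, integral_const_mul]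
          have h1 : ∫ x in D ∩ Ω, ‖gr h x‖ ^ 2 ≤ ∫ x in Ω, ‖gr h x‖ ^ 2 :=
            setIntegral_mono_set hA (Eventually.of_forall fun x => sq_nonneg _)
              (LE.le.eventuallyLE inter_subset_right)
          have h2 : ∫ x in D ∩ Ω, ‖gr (κ n) x‖ ^ 2 ≤ ε :=
            (setIntegral_le_integral (hκi n) (Eventually.of_forall fun x => sq_nonneg _)).trans (hκe n)
          have h3 : (Real.sqrt ε)⁻¹ * ε = Real.sqrt ε := by
            rw [inv_mul_eq_div, Real.div_sqrt]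
          calc M * (((Real.sqrt ε * ∫ x in D ∩ Ω, ‖gr h x‖ ^ 2) +
              (Real.sqrt ε)⁻¹ * ∫ x in D ∩ Ω, ‖gr (κ n) x‖ ^ 2) / 2)
              ≤ M * (((Real.sqrt ε * ∫ x in Ω, ‖gr h x‖ ^ 2) + (Real.sqrt ε)⁻¹ * ε) / 2) := by gcongr
            _ = M * (Real.sqrt ε * ((∫ x in Ω, ‖gr h x‖ ^ 2) + 1) / 2) := by rw [h3]; ring
  have hlim1 : Tendsto (fun n => M * (Real.sqrt (e n) * ((∫ x in Ω, ‖gr h x‖ ^ 2) + 1) / 2)) atTop
      (𝓝 (M * (Real.sqrt 0 * ((∫ x in Ω, ‖gr h x‖ ^ 2) + 1) / 2))) := by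
    have h1 : Tendsto e atTop (𝓝 0) := tendsto_one_div_add_atTop_nhds_zero_nat
    exact ((((Real.continuous_sqrt.tendsto 0).comp h1).mul_const _).div_const 2).const_mul M
  rw [Real.sqrt_zero, zero_mul, zero_div, mul_zero] at hlim1
  have hlim2 : Tendsto (fun n => ∫ x in D ∩ Ω, κ n x * ⟪gr h x, gr φ x⟫) atTop
      (𝓝 (∫ x in D ∩ Ω, ⟪gr h x, gr φ x⟫)) := by
    refine tendsto_integral_of_dominated_convergence (fun x => ‖⟪gr h x, gr φ x⟫‖) ?_ hG'.norm ?_ ?_
    · intro n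
      obtain ⟨K1, hK1⟩ := hκL n
      exact hK1.continuous.aestronglyMeasurable.mul hG'.1
    · refine fun n => Eventually.of_forall fun x => ?_
      rw [norm_mul, Real.norm_eq_abs (κ n x)]
      refine mul_le_of_le_one_left (norm_nonneg _) ?_
      rw [abs_of_nonneg (hκ01 n x).1]
      exact (hκ01 n x).2
    · refine ae_restrict_of_ae ?_
      filter_upwards [hSae] with x hxS
      have hxZ : x ∉ Z := fun hh => hxS (hZS hh)
      have hpos : 0 < infDist x Z := by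
        rcases (infDist_nonneg (x := x) (s := Z)).lt_or_eq with h1 | h1
        · exact h1
        · exact absurd ((hZc.isClosed.mem_iff_infDist_zero hZn).2 h1.symm) hxZ
      have h1 : ∀ᶠ n in atTop, e n < infDist x Z :=
        (tendsto_one_div_add_atTop_nhds_zero_nat (𝕜 := ℝ)).eventually_lt_const hpos
      refine (tendsto_congr' ?_).2 tendsto_const_nhds
      filter_upwards [h1] with n hn
      rw [hκ1 n x hn.le, one_mul]
  have h3 := le_of_tendsto_of_tendsto' hlim2.abs hlim1 hb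
  exact abs_nonpos_iff.1 h3

end Pool.Agent.H4.ICA
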